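import Pool.Agent.Lib.MP_092512_nt.TT.E.Bal

/-!
# TT / E / Pse: `bal` for the numbers `X = l X'` and the difference `D h`, `D = W² D'`, `h : ℤ`

`PSE` = the numbers `X ∈ (a, b]`, `X = l X'`, `X'` and `Y = X - D h` rough, `t ∣ X`, `t' ∣ Y`, `X ≡ r (W)`. `X' ↦ l X'` is a bijection from `PL` onto `PSE` (`t` is coprime to `l`, its primes are `> y0 ≥ l`), `D |h| < u`.
-/

set_option autoImplicit false

open Finset

namespace Pool.Agent.Lib.TTE

open Pool.Agent.Lib.TCF (pht TUP rho)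
open Pool.Agent.Lib.RG (Rough)
open Pool.Agent.Lib.MP_45349e_nt.LS (lam)
open Pool.Agent.Lib.TT (Par Dat Ctx Fam Mul sh)

open Classical in
/-- the numbers `X ∈ (a, b]`, `X = l X'`, `X ≡ r` modulo `W`, `X'` and `Y = X - D h` rough, `t ∣ X`, `t' ∣ Y` (`D = W² D'`) -/
noncomputable def PSE (W D' l y0 : ℕ) (h : ℤ) (a b r t t' : ℕ) : Finset ℕ :=
  (Ioc a b).filter fun X => (∃ X', X = l * X' ∧ Rough y0 X') ∧ ((W ^ 2 * D' : ℕ) : ℤ) * h < X ∧
    Rough y0 ((X : ℤ) - ((W ^ 2 * D' : ℕ) : ℤ) * h).toNat ∧ t ∣ X ∧ t' ∣ ((X : ℤ) - ((W ^ 2 * D' : ℕ) : ℤ) * h).toNat ∧ X ≡ r [MOD W]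

private theorem pse_lp (A : ℕ) (δ : ℝ) (hδ : 0 < δ) : ∀ᶠ N : ℕ in Filter.atTop, (Real.log N) ^ A < (N : ℝ) ^ δ := by
  have h1 : (fun t : ℝ => Real.log t ^ A) =o[Filter.atTop] fun t : ℝ => t ^ δ := by
    have := isLittleO_log_rpow_rpow_atTop (A : ℝ) hδ
    refine this.congr' ?_ (Filter.EventuallyEq.rfl)
    filter_upwards with t
    exact Real.rpow_natCast _ _
  have h2 := (tendsto_natCast_atTop_atTop (R := ℝ)).eventually (h1.bound (show (0 : ℝ) < 1 / 2 by norm_num))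
  filter_upwards [h2, (Real.tendsto_log_atTop.comp tendsto_natCast_atTop_atTop).eventually_ge_atTop (0 : ℝ),
    Filter.eventually_ge_atTop 1] with N hN h0 h3
  have h0' : 0 ≤ Real.log (N : ℝ) := h0
  have h4 : (0 : ℝ) < N := by exact_mod_cast h3
  rw [Real.norm_eq_abs, Real.norm_eq_abs, abs_of_nonneg (pow_nonneg h0' _),
    abs_of_nonneg (Real.rpow_nonneg (Nat.cast_nonneg _) _)] at hN
  have h5 := Real.rpow_pos_of_pos h4 δ
  linarith

private theorem pse_sh {s : Bool} {h : ℤ} (hh : h ≠ 0) (hs : s = true ↔ 0 < h) (D X : ℕ) :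
    sh s X (D * h.natAbs) = ((X : ℤ) - (D : ℤ) * h).toNat := by
  unfold sh
  rcases lt_or_gt_of_ne hh with h1 | h1
  · have h2 : s = false := by
      rw [← Bool.not_eq_true]
      intro h3
      have := hs.1 h3
      omega
    rw [h2]
    have h3 : (X : ℤ) - (D : ℤ) * h = ((X + D * h.natAbs : ℕ) : ℤ) := by
      push_cast
      rw [abs_of_neg h1]
      ring
    rw [h3, Int.toNat_natCast]
    rfl
  · have h2 : s = true := hs.2 h1
    rw [h2]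
    have h3 : (D : ℤ) * h = ((D * h.natAbs : ℕ) : ℤ) := by
      push_cast
      rw [abs_of_pos h1]
    rw [h3, ← Int.toNat_sub]
    rfl

open Classical in
private theorem pse_card {W D' l y0 : ℕ} {s : Bool} {h : ℤ} (hh : h ≠ 0) (hs : s = true ↔ 0 < h) {u t t' : ℕ} (r : ℕ) (hl1 : 1 ≤ l)
    (hl : ∀ p : ℕ, p.Prime → p ∣ l → p ≤ y0) (ht : ∀ p : ℕ, p.Prime → p ∣ t → y0 < p) (hd : W ^ 2 * D' * h.natAbs < u)
    (Q : ℕ → Prop) (Q' : ℕ → Prop) [DecidablePred Q] [DecidablePred Q'] (hQ : ∀ X, Q' X ↔ Q (l * X)) :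
    ((PSE W D' l y0 h u (2 * u) r t t').filter Q).card = ((PL y0 l s (W ^ 2 * D' * h.natAbs) u W r t t').filter Q').card := by
  symm
  have hcop : t.Coprime l := by
    by_contra hc
    obtain ⟨p, hp, h1, h2⟩ := Nat.Prime.not_coprime_iff_dvd.1 hc
    have := ht p hp h1
    have := hl p hp h2
    omega
  have hlt : ∀ X : ℕ, u < X → ((W ^ 2 * D' : ℕ) : ℤ) * h < X := by
    intro X hX
    have h1 : ((W ^ 2 * D' : ℕ) : ℤ) * h ≤ ((W ^ 2 * D' * h.natAbs : ℕ) : ℤ) := by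
      push_cast
      exact mul_le_mul_of_nonneg_left (le_abs_self h) (by positivity)
    have h2 : ((W ^ 2 * D' * h.natAbs : ℕ) : ℤ) < X := by exact_mod_cast hd.trans hX
    linarith
  refine card_bij (fun X _ => l * X) ?_ ?_ ?_
  · intro X hX
    unfold PL at hX
    simp only [mem_filter, mem_Icc] at hX
    obtain ⟨⟨⟨h1, h2⟩, h3, h4, h5, h6, h7, h8, h9⟩, h10⟩ := hX
    rw [pse_sh hh hs] at h7 h9
    unfold PSE
    simp only [mem_filter, mem_Ioc]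
    exact ⟨⟨⟨h3, h4⟩, ⟨X, rfl, h8⟩, hlt _ h3, h9, Dvd.dvd.mul_left h6 l, h7, h5⟩, (hQ X).1 h10⟩
  · intro X _ X' _ h1
    exact Nat.eq_of_mul_eq_mul_left hl1 h1
  · intro X hX
    unfold PSE at hX
    simp only [mem_filter, mem_Ioc] at hX
    obtain ⟨⟨⟨h1, h2⟩, ⟨X', h3, h4⟩, h5, h6, h7, h8, h9⟩, h10⟩ := hX
    refine ⟨X', ?_, h3.symm⟩
    subst h3
    unfold PL
    simp only [mem_filter, mem_Icc]
    have h11 : 1 ≤ X' := by
      rcases Nat.eq_zero_or_pos X' with h | h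
      · rw [h, Nat.mul_zero] at h1
        omega
      · exact h
    have h12 : X' ≤ l * X' := Nat.le_mul_of_pos_left _ hl1
    refine ⟨⟨⟨h11, by omega⟩, h1, h2, h9, ?_, ?_, h4, ?_⟩, (hQ X').2 h10⟩
    · exact Nat.Coprime.dvd_of_dvd_mul_left hcop h7
    · rw [pse_sh hh hs]
      exact h8
    · rw [pse_sh hh hs]
      exact h6

open Classical in
theorem balP (P : Par) (hP : P.Ok) (h01 : P.d0 ≤ 1 / 100) (W : ℕ) (hW : 1 ≤ W) (hW2 : 2 ∣ W) (h : ℤ) (hh : h ≠ 0) (hs : P.s = true ↔ 0 < h)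
    (A : ℕ) : ∃ x0 : ℕ, ∀ D : Dat, x0 ≤ D.x → Ctx P D → ∀ l u D' r : ℕ, Mul P D.x l → (D.x : ℝ) ^ (1 - P.d0) ≤ u → u ≤ D.x → 1 ≤ D' →
    ((W ^ 2 * D' * h.natAbs : ℕ) : ℝ) ≤ (Real.log D.x) ^ (P.Cf + P.C1 + 240) →
    ∑ t ∈ TUP D.BX, ∑ t' ∈ TUP D.BY,
      |(((PSE W D' l D.y0 h u (2 * u) r t t').filter fun X => lam X = -1 ∧ lam ((X : ℤ) - ((W ^ 2 * D' : ℕ) : ℤ) * h).toNat = 1).card : ℝ) -
        ((PSE W D' l D.y0 h u (2 * u) r t t').filter fun X => lam X = 1 ∧ lam ((X : ℤ) - ((W ^ 2 * D' : ℕ) : ℤ) * h).toNat = -1).card| ≤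
      rho D.BX * rho D.BY * u / (Real.log D.x) ^ A := by
  obtain ⟨x1, hx1⟩ := bal P hP h01 W hW A
  obtain ⟨x2, hx2⟩ := ((pse_lp (P.Cf + P.C1 + 240) (1 / 2) (by norm_num)).and
    ((Real.tendsto_log_atTop.comp tendsto_natCast_atTop_atTop).eventually_ge_atTop (4 : ℝ))).exists_forall_of_atTop
  refine ⟨max 2 (max x1 x2), ?_⟩
  intro D hx hC l u D' r hl hu huD hD' hd
  rw [max_le_iff, max_le_iff] at hx
  obtain ⟨g0, g1, g2⟩ := hx
  obtain ⟨a1, a2⟩ := hx2 D.x g2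
  have a2' : (4 : ℝ) ≤ Real.log D.x := a2
  have hxR : (1 : ℝ) < D.x := by exact_mod_cast (by omega : 1 < D.x)
  have hdu : W ^ 2 * D' * h.natAbs < u := by
    have h1 : ((W ^ 2 * D' * h.natAbs : ℕ) : ℝ) < u := by
      refine lt_of_le_of_lt hd (lt_of_lt_of_le a1 (le_trans ?_ hu))
      exact Real.rpow_le_rpow_of_exponent_le hxR.le (by linarith)
    exact_mod_cast h1
  have hW0 : 1 ≤ W ^ 2 := Nat.one_le_pow _ _ hW
  have hh0 : 1 ≤ h.natAbs := Int.natAbs_pos.2 hh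
  have hd1 : 1 ≤ W ^ 2 * D' * h.natAbs := Nat.mul_pos (Nat.mul_pos hW0 hD') hh0
  have hd2 : 2 ∣ W ^ 2 * D' * h.natAbs := by
    refine Dvd.dvd.mul_right (Dvd.dvd.mul_right ?_ _) _
    exact hW2.trans (dvd_pow_self W two_ne_zero)
  have hcp := hP.cp
  have hl1 : 1 ≤ l := by
    rcases hl with h1 | h1
    · omega
    · exact h1.1.one_lt.le
  have hly : ∀ p : ℕ, p.Prime → p ∣ l → p ≤ D.y0 := by
    intro p hp hpl
    rcases hl with h1 | ⟨h1, -, h2, -⟩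
    · rw [h1] at hpl
      exact absurd (Nat.dvd_one.1 hpl) hp.one_lt.ne'
    · rw [(Nat.prime_dvd_prime_iff_eq hp h1).1 hpl, hC.y0]
      refine Nat.le_floor (h2.trans ?_)
      calc 4 * (Real.log D.x) ^ P.C1 ≤ Real.log D.x * (Real.log D.x) ^ P.C1 :=
            mul_le_mul_of_nonneg_right a2' (by positivity)
        _ = (Real.log D.x) ^ (P.C1 + 1) := by rw [pow_succ]; ring
        _ ≤ _ := pow_le_pow_right₀ (by linarith) (by omega)
  refine le_trans (le_of_eq ?_) (hx1 D g1 hC l hl u (W ^ 2 * D' * h.natAbs) r hu huD hd1 hd hd2)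
  refine sum_congr rfl fun t ht => sum_congr rfl fun t' _ => ?_
  have htp : ∀ p : ℕ, p.Prime → p ∣ t → D.y0 < p := by
    intro p hp hpt
    unfold TUP at ht
    obtain ⟨m, hm, rfl⟩ := mem_image.1 ht
    have hm' := Fintype.mem_piFinset.1 hm
    obtain ⟨c, -, hc⟩ := (Prime.dvd_finsetProd_iff hp.prime m).1 hpt
    rw [(Nat.prime_dvd_prime_iff_eq hp (hC.fx.pr c _ (hm' c)).1).1 hc]
    exact (hC.fx.pr c _ (hm' c)).2
  rw [pse_card hh hs r hl1 hly htp hdu (fun X => lam X = -1 ∧ lam ((X : ℤ) - ((W ^ 2 * D' : ℕ) : ℤ) * h).toNat = 1)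
      (fun X => lam (l * X) = -1 ∧ lam (sh P.s (l * X) (W ^ 2 * D' * h.natAbs)) = 1) (fun X => by rw [pse_sh hh hs]),
    pse_card hh hs r hl1 hly htp hdu (fun X => lam X = 1 ∧ lam ((X : ℤ) - ((W ^ 2 * D' : ℕ) : ℤ) * h).toNat = -1)
      (fun X => lam (l * X) = 1 ∧ lam (sh P.s (l * X) (W ^ 2 * D' * h.natAbs)) = -1) (fun X => by rw [pse_sh hh hs])]

end Pool.Agent.Lib.TTE
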