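import Pool.Agent.Lib.MP_092512_nt.TT.E.St

/-!
# TT / E / S2 (110 minutes): the sum of `lam Y`

PROOF. For a fixed pair `(g, m)` the condition is: `Z = g n`, `Rough y0 n`, `Z ≡ r (W)` and `Z + H = l X`, `m ∣ X`, `X` rough.
`l = 1`: `m ∣ Z + H`, `RZ y0 (Z + H)`: as in `S1` (`RZe 1 w z ↔ RZ w z`), `seT` with `d = 1`, `M = W`, `c = r`, `B = b` and `B = a`.
`l` prime (`K ^ C1 < l ≤ 4 K ^ C1 ≤ y0`, `l ∤ q`; `l > W`): `X` is rough, so `l ∤ X`; the condition is `l ∣ Z + H`, `l ^ 2 ∤ Z + H`, `m ∣ Z + H` (`m` is prime to `l`), and no prime `p ≤ y0`, `p ≠ l`, divides `Z + H`, i.e. `RZe l y0 (Z + H)`. So the sum is the sum with modulus `l` minus the sum with modulus `l ^ 2`: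
`∑_{[l ∣ Z + H] [RZe]} - ∑_{[l ^ 2 ∣ Z + H] [RZe]}`, each is `± (NS (T = b / g) - NS (T = a / g))` with `d = 1`, `G = g`, `M = W l ^ k` (`k = 1, 2`), `c ≡ r (W)`, `c ≡ - H (l ^ k)` (Chinese remainder; `W` prime to `l`); `c` is prime to `M` if `r` is prime to `W` and `l ∤ H`; if `r` is not prime to `W`, or `l ∣ H` (then `l ∣ Z`), the set of the `Z` is empty because `Z` is rough.
`M ≤ W (4 K ^ C1) ^ 2 ≤ K ^ (2 C1 + 5)`. `seT (A + 2)` four times. Positivity of `Z + H`: `Z > a ≥ x ^ (1 - d0) / 2 > y0 ≥ |H|`.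
-/

set_option autoImplicit false

open Finset

namespace Pool.Agent.Lib.TTE

open Pool.Agent.Lib.TCF (pht TUP rho)
open Pool.Agent.Lib.RG (Rough)
open Pool.Agent.Lib.MP_45349e_nt.LS (lam)
open Pool.Agent.Lib.TT (Par Dat Ctx Fam Mul sh)
open Pool.Agent.Lib.T3E (RZ HN HG)

private theorem s2_num (P : Par) (hP : P.Ok) (h01 : P.d0 ≤ 1 / 100) (W : ℕ) : ∃ x0 : ℕ, ∀ D : Dat, x0 ≤ D.x → Ctx P D →
    16 ≤ Real.log D.x ∧ (W : ℝ) ≤ Real.log D.x ∧ W ≤ D.y0 ∧ 2 ≤ D.y0 ∧ 4 * (Real.log D.x) ^ P.C1 ≤ D.y0 ∧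
      (D.y0 : ℝ) < (D.x : ℝ) ^ (1 - P.d0) / 2 := by
  obtain ⟨x1, hx1⟩ := Pool.Agent.Lib.TT.grow P hP (max 16 W)
  have h1 := (isLittleO_log_rpow_rpow_atTop (P.Cp : ℝ) (show (0 : ℝ) < 99 / 100 by norm_num)).bound
    (show (0 : ℝ) < 1 / 4 by norm_num)
  have h2 := tendsto_natCast_atTop_atTop.eventually h1
  obtain ⟨x2, hx2⟩ := Filter.eventually_atTop.1 h2
  refine ⟨max x1 x2, fun D hD hC => ?_⟩
  obtain ⟨g1, g2, g3, g4, g5, g6, g7, g8, g9, g10, g11, g12, g13, g14, g15⟩ := hx1 D ((le_max_left _ _).trans hD) hC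
  have h3 := hx2 D.x ((le_max_right _ _).trans hD)
  have hK : 16 ≤ Real.log D.x := (le_max_left _ _).trans g2
  have hWK : (W : ℝ) ≤ Real.log D.x := (le_max_right _ _).trans g2
  have hHy : (Pool.Agent.Lib.TT.HH P D.x : ℝ) < D.y0 := by exact_mod_cast g12
  have hx : (3 : ℝ) ≤ D.x := by exact_mod_cast g1
  have hKC : Real.log D.x ≤ (Real.log D.x) ^ P.C1 := by
    have h4 : 1 ≤ P.C1 := le_trans (by norm_num) hP.c1
    calc Real.log D.x = (Real.log D.x) ^ 1 := (pow_one _).symm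
      _ ≤ (Real.log D.x) ^ P.C1 := pow_le_pow_right₀ (by linarith) h4
  have hpos : 0 < (Real.log D.x) ^ P.C1 := by positivity
  refine ⟨hK, hWK, ?_, g5, by linarith, ?_⟩
  · have : (W : ℝ) ≤ D.y0 := by linarith
    exact_mod_cast this
  · rw [Real.norm_eq_abs, Real.norm_eq_abs, Real.rpow_natCast, abs_of_nonneg (by positivity),
      abs_of_nonneg (by positivity)] at h3
    have h5 : (D.x : ℝ) ^ ((99 : ℝ) / 100) ≤ (D.x : ℝ) ^ (1 - P.d0) :=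
      Real.rpow_le_rpow_of_exponent_le (by linarith) (by linarith)
    have h6 : 0 < (D.x : ℝ) ^ (1 - P.d0) := by positivity
    linarith

private theorem s2_eqv {y0 l m Z : ℕ} {H : ℤ} (hl : l.Prime) (hly : l ≤ y0) (hm : Rough y0 m) (hZ : 0 ≤ (Z : ℤ) + H) :
    (∃ X : ℕ, ((l * X : ℕ) : ℤ) = (Z : ℤ) + H ∧ m ∣ X ∧ Rough y0 X) ↔
      (((l ^ 1 : ℕ) : ℤ) ∣ (Z : ℤ) + H ∧ ¬ ((l ^ 2 : ℕ) : ℤ) ∣ (Z : ℤ) + H ∧ (m : ℤ) ∣ (Z : ℤ) + H ∧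
        RZe l y0 ((Z : ℤ) + H)) := by
  obtain ⟨Y, hY⟩ := Int.eq_ofNat_of_zero_le hZ
  rw [hY, pow_one]
  unfold RZe Rough
  simp only [Int.natCast_dvd_natCast]
  constructor
  · rintro ⟨X, h1, h2, h3⟩
    have h1' : l * X = Y := by exact_mod_cast h1
    subst h1'
    refine ⟨dvd_mul_right l X, ?_, h2.mul_left l, ?_⟩
    · intro h4
      rw [pow_two] at h4
      have h5 : l ∣ X := Nat.dvd_of_mul_dvd_mul_left hl.pos h4
      have h6 := h3 l hl h5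
      omega
    · intro p hp hd
      rcases (Nat.Prime.dvd_mul hp).1 hd with h4 | h4
      · exact Or.inl ((Nat.prime_dvd_prime_iff_eq hp hl).1 h4)
      · exact Or.inr (h3 p hp h4)
  · rintro ⟨⟨X, rfl⟩, h2, h3, h4⟩
    have hcop : m.Coprime l := by
      refine ((Nat.Prime.coprime_iff_not_dvd hl).2 fun h5 => ?_).symm
      have := hm l hl h5
      omega
    refine ⟨X, rfl, hcop.dvd_of_dvd_mul_left h3, ?_⟩
    intro p hp hd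
    rcases h4 p hp (hd.mul_left l) with h5 | h5
    · exfalso
      subst h5
      apply h2
      rw [pow_two]
      exact Nat.mul_dvd_mul_left p hd
    · exact h5

private theorem s2_eqv1 {y0 m Z : ℕ} {H : ℤ} (hZ : 0 ≤ (Z : ℤ) + H) :
    (∃ X : ℕ, ((1 * X : ℕ) : ℤ) = (Z : ℤ) + H ∧ m ∣ X ∧ Rough y0 X) ↔
      ((m : ℤ) ∣ (Z : ℤ) + H ∧ RZe 1 y0 ((Z : ℤ) + H)) := by
  obtain ⟨Y, hY⟩ := Int.eq_ofNat_of_zero_le hZ
  rw [hY]
  unfold RZe Rough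
  simp only [Int.natCast_dvd_natCast, one_mul]
  constructor
  · rintro ⟨X, h1, h2, h3⟩
    have h1' : X = Y := by exact_mod_cast h1
    subst h1'
    exact ⟨h2, fun p hp hd => Or.inr (h3 p hp hd)⟩
  · rintro ⟨h2, h3⟩
    refine ⟨Y, rfl, h2, fun p hp hd => ?_⟩
    rcases h3 p hp hd with h4 | h4
    · exact absurd h4 hp.one_lt.ne'
    · exact h4

private theorem s2_rough {y0 g n : ℕ} (hg : Rough y0 g) : Rough y0 (g * n) ↔ Rough y0 n := by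
  constructor
  · intro h p hp hd
    exact h p hp (hd.mul_left g)
  · intro h p hp hd
    rcases (Nat.Prime.dvd_mul hp).1 hd with h1 | h1
    · exact hg p hp h1
    · exact h p hp h1

open Classical in
private theorem s2_core {y0 l M c g m a b : ℕ} {H : ℤ} (hg1 : 1 ≤ g) (hab : a ≤ b) (hgy : Rough y0 g) :
    |∑ Z ∈ (Ioc a b).filter (fun Z => g ∣ Z ∧ (Rough y0 Z ∧ Z ≡ c [MOD M] ∧ (m : ℤ) ∣ ((Z : ℕ) : ℤ) + H ∧
      RZe l y0 (((Z : ℕ) : ℤ) + H))), lam Z| ≤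
      |∑ n ∈ NS y0 l H M c (1 * g) m (b / (1 * g)), lam n| + |∑ n ∈ NS y0 l H M c (1 * g) m (a / (1 * g)), lam n| := by
  have key : ∀ T : ℕ, ∑ n ∈ (Icc 1 T).filter (fun n => Rough y0 (g * n) ∧ g * n ≡ c [MOD M] ∧
      (m : ℤ) ∣ ((g * n : ℕ) : ℤ) + H ∧ RZe l y0 (((g * n : ℕ) : ℤ) + H)), lam (g * n) =
      lam g * ∑ n ∈ NS y0 l H M c g m T, lam n := by
    intro T
    unfold NS
    rw [mul_sum]
    refine sum_congr ?_ ?_
    · ext n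
      rw [mem_filter, mem_filter, s2_rough hgy]
    · intro n hn
      rw [mem_filter, mem_Icc] at hn
      exact Pool.Agent.Lib.MP_45349e_nt.LS.lam_mul g n (by omega) (by omega)
  have h := Pool.Agent.Lib.T3E.rng g a b hg1 hab (fun Z => Rough y0 Z ∧ Z ≡ c [MOD M] ∧ (m : ℤ) ∣ ((Z : ℕ) : ℤ) + H ∧
      RZe l y0 (((Z : ℕ) : ℤ) + H)) lam
  rw [one_mul]
  calc _ = |lam g * ∑ n ∈ NS y0 l H M c g m (b / g), lam n - lam g * ∑ n ∈ NS y0 l H M c g m (a / g), lam n| := by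
        rw [← key, ← key]
        refine congrArg _ (Eq.trans (sum_congr ?_ fun _ _ => rfl) (h.trans (congrArg₂ _ (sum_congr ?_ fun _ _ => rfl)
          (sum_congr ?_ fun _ _ => rfl))))
        · ext Z
          simp only [mem_filter]
        · ext Z
          simp only [mem_filter]
        · ext Z
          simp only [mem_filter]
    _ ≤ _ := by
        rw [← mul_sub, abs_mul, Pool.Agent.Lib.MP_45349e_nt.LS.abs_lam, one_mul]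
        exact abs_sub _ _

open Classical in
theorem s2 (P : Par) (hP : P.Ok) (h01 : P.d0 ≤ 1 / 100) (W : ℕ) (hW : 1 ≤ W) (A : ℕ) : ∃ x0 : ℕ, ∀ D : Dat, x0 ≤ D.x → Ctx P D →
    ∀ (n1 n2 : ℕ) (B1 : Fin n1 → Finset ℕ) (B2 : Fin n2 → Finset ℕ), Fam P D.x D.y0 B1 → Fam P D.x D.y0 B2 →
    ∀ l : ℕ, Mul P D.x l → ∀ (r a b : ℕ) (H : ℤ), H ≠ 0 → H.natAbs ≤ D.y0 → (2 : ℤ) ∣ H →
    (D.x : ℝ) ^ (1 - P.d0) / 2 ≤ a → a ≤ b → b ≤ 4 * D.x →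
    ∑ g ∈ TUP B1, ∑ m ∈ TUP B2, |∑ Z ∈ (Ioc a b).filter (fun Z => g ∣ Z ∧ Z ≡ r [MOD W] ∧ Rough D.y0 Z ∧
      ∃ X : ℕ, ((l * X : ℕ) : ℤ) = (Z : ℤ) + H ∧ m ∣ X ∧ Rough D.y0 X), lam Z| ≤ rho B1 * rho B2 * b / (Real.log D.x) ^ A := by
  obtain ⟨x1, hx1⟩ := s2_num P hP h01 W
  obtain ⟨x2, hx2⟩ := seT P hP h01 (A + 2)
  refine ⟨max x1 x2, fun D hD hC n1 n2 B1 B2 hF1 hF2 l hl r a b H hH0 hHy hH2 ha hab hb => ?_⟩
  obtain ⟨e1, e2, e3, e4, e5, e6⟩ := hx1 D ((le_max_left _ _).trans hD) hC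
  have hT := hx2 D ((le_max_right _ _).trans hD) hC n1 n2 B1 B2 hF1 hF2
  obtain ⟨-, f1, f2, f3⟩ := fam_card P D.x D.y0 B1 hF1
  obtain ⟨-, k1, k2, k3⟩ := fam_card P D.x D.y0 B2 hF2
  obtain ⟨K, hK⟩ : ∃ K : ℝ, K = Real.log D.x := ⟨_, rfl⟩
  rw [← hK] at e1 e2 e5 hT ⊢
  have hK0 : 0 < K := by linarith
  have hKA : 0 < K ^ A := by positivity
  have hRHS : 0 ≤ rho B1 * rho B2 * b / K ^ A := by positivity
  have haR : (a : ℝ) ≤ b := by exact_mod_cast hab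
  have hbR : (D.x : ℝ) ^ (1 - P.d0) / 2 ≤ b := ha.trans haR
  have hya : D.y0 < a := by
    have : (D.y0 : ℝ) < a := lt_of_lt_of_le e6 ha
    exact_mod_cast this
  have hZH : ∀ Z ∈ Ioc a b, 0 ≤ (Z : ℤ) + H := by
    intro Z hZ
    rw [mem_Ioc] at hZ
    omega
  -- everything vanishes
  have hzero : (∀ Z X : ℕ, Z ≡ r [MOD W] → Rough D.y0 Z → ((l * X : ℕ) : ℤ) = (Z : ℤ) + H → False) →
      ∑ g ∈ TUP B1, ∑ m ∈ TUP B2, |∑ Z ∈ (Ioc a b).filter (fun Z => g ∣ Z ∧ Z ≡ r [MOD W] ∧ Rough D.y0 Z ∧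
      ∃ X : ℕ, ((l * X : ℕ) : ℤ) = (Z : ℤ) + H ∧ m ∣ X ∧ Rough D.y0 X), lam Z| ≤ rho B1 * rho B2 * b / K ^ A := by
    intro h
    refine le_trans (le_of_eq ?_) hRHS
    refine sum_eq_zero fun g _ => sum_eq_zero fun m _ => ?_
    rw [filter_false_of_mem, sum_empty, abs_zero]
    rintro Z _ ⟨_, h2, h3, X, h4, _, _⟩
    exact h Z X h2 h3 h4
  -- the two ends
  have hend : ∀ M c : ℕ, l ∣ M → 1 ≤ M → (M : ℝ) ≤ K ^ (2 * P.C1 + 5) → (∀ p : ℕ, p.Prime → p ∣ M → p ≤ D.y0) → c.Coprime M →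
      ∑ g ∈ TUP B1, ∑ m ∈ TUP B2, |∑ Z ∈ (Ioc a b).filter (fun Z => g ∣ Z ∧ (Rough D.y0 Z ∧ Z ≡ c [MOD M] ∧
        (m : ℤ) ∣ ((Z : ℕ) : ℤ) + H ∧ RZe l D.y0 (((Z : ℕ) : ℤ) + H))), lam Z| ≤ rho B1 * rho B2 * b / K ^ A / 2 := by
    intro M c m1 m2 m3 m4 m5
    have hone : ∀ B : ℕ, (D.x : ℝ) ^ (1 - P.d0) / 2 ≤ B → B ≤ 4 * D.x →
        ∑ g ∈ TUP B1, ∑ m ∈ TUP B2, |∑ n ∈ NS D.y0 l H M c (1 * g) m (B / (1 * g)), lam n| ≤
      rho B1 * rho B2 * (B / (1 : ℕ)) / K ^ (A + 2) := by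
      intro B b1 b2
      refine hT l 1 M c B H odd_one le_rfl ?_ (by omega) (Nat.coprime_one_left M) ?_ m1 m2 m3 m4 m5 hH0 hHy hH2 b1 b2
      · rw [Nat.cast_one]
        exact one_le_pow₀ (by linarith)
      · rw [Nat.cast_one]
        exact isCoprime_one_left
    have h1 := hone b hbR hb
    have h2 := hone a ha (hab.trans hb)
    have h3 : ∑ g ∈ TUP B1, ∑ m ∈ TUP B2, |∑ Z ∈ (Ioc a b).filter (fun Z => g ∣ Z ∧ (Rough D.y0 Z ∧ Z ≡ c [MOD M] ∧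
        (m : ℤ) ∣ ((Z : ℕ) : ℤ) + H ∧ RZe l D.y0 (((Z : ℕ) : ℤ) + H))), lam Z| ≤
        ∑ g ∈ TUP B1, ∑ m ∈ TUP B2, (|∑ n ∈ NS D.y0 l H M c (1 * g) m (b / (1 * g)), lam n| +
          |∑ n ∈ NS D.y0 l H M c (1 * g) m (a / (1 * g)), lam n|) := by
      refine sum_le_sum fun g hg => sum_le_sum fun m _ => ?_
      exact s2_core (f1 g hg).1 hab (f1 g hg).2
    have h4 : ∑ g ∈ TUP B1, ∑ m ∈ TUP B2, (|∑ n ∈ NS D.y0 l H M c (1 * g) m (b / (1 * g)), lam n| +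
          |∑ n ∈ NS D.y0 l H M c (1 * g) m (a / (1 * g)), lam n|) =
        ∑ g ∈ TUP B1, ∑ m ∈ TUP B2, |∑ n ∈ NS D.y0 l H M c (1 * g) m (b / (1 * g)), lam n| +
        ∑ g ∈ TUP B1, ∑ m ∈ TUP B2, |∑ n ∈ NS D.y0 l H M c (1 * g) m (a / (1 * g)), lam n| := by
      simp only [sum_add_distrib]
    rw [h4] at h3
    refine h3.trans ((add_le_add h1 h2).trans ?_)
    rw [Nat.cast_one, div_one, div_one, ← add_div, ← mul_add, pow_add, div_div, div_le_div_iff₀ (by positivity) (by positivity)]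
    have h5 : (b : ℝ) + a ≤ 2 * b := by linarith
    have h6 : 4 ≤ K ^ 2 := by nlinarith
    have h7 : 0 ≤ rho B1 * rho B2 := by positivity
    calc rho B1 * rho B2 * ((b : ℝ) + a) * (K ^ A * 2) ≤ rho B1 * rho B2 * (2 * b) * (K ^ A * 2) := by
          refine mul_le_mul_of_nonneg_right (mul_le_mul_of_nonneg_left h5 h7) (by positivity)
      _ = rho B1 * rho B2 * b * (K ^ A * 4) := by ring
      _ ≤ rho B1 * rho B2 * b * (K ^ A * K ^ 2) := by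
          refine mul_le_mul_of_nonneg_left (mul_le_mul_of_nonneg_left h6 hKA.le) (by positivity)
  by_cases hr : r.Coprime W
  swap
  · apply hzero
    intro Z X h1 h2 _
    obtain ⟨p, hp, hp1, hp2⟩ := Nat.Prime.not_coprime_iff_dvd.1 hr
    have h3 : p ∣ Z := ((h1.of_dvd hp2).dvd_iff dvd_rfl).2 hp1
    have h4 := h2 p hp h3
    have h5 := Nat.le_of_dvd hW hp2
    omega
  have hWp : ∀ p : ℕ, p.Prime → p ∣ W → p ≤ D.y0 := fun p _ hd => (Nat.le_of_dvd hW hd).trans e3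
  rcases hl with rfl | ⟨hlp, hl1, hl2, -⟩
  · have h1 := hend W r (one_dvd W) hW (e2.trans (by
      calc K = K ^ 1 := (pow_one K).symm
        _ ≤ K ^ (2 * P.C1 + 5) := pow_le_pow_right₀ (by linarith) (by omega))) hWp hr
    have h2 : ∑ g ∈ TUP B1, ∑ m ∈ TUP B2, |∑ Z ∈ (Ioc a b).filter (fun Z => g ∣ Z ∧ Z ≡ r [MOD W] ∧ Rough D.y0 Z ∧
      ∃ X : ℕ, ((1 * X : ℕ) : ℤ) = (Z : ℤ) + H ∧ m ∣ X ∧ Rough D.y0 X), lam Z| =
      ∑ g ∈ TUP B1, ∑ m ∈ TUP B2, |∑ Z ∈ (Ioc a b).filter (fun Z => g ∣ Z ∧ (Rough D.y0 Z ∧ Z ≡ r [MOD W] ∧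
        (m : ℤ) ∣ ((Z : ℕ) : ℤ) + H ∧ RZe 1 D.y0 (((Z : ℕ) : ℤ) + H))), lam Z| := by
      refine sum_congr rfl fun g _ => sum_congr rfl fun m _ => congrArg _ (sum_congr ?_ fun _ _ => rfl)
      refine filter_congr fun Z hZ => ?_
      rw [s2_eqv1 (hZH Z hZ)]
      tauto
    rw [h2]
    refine h1.trans ?_
    linarith
  · rw [← hK] at hl1 hl2
    have hly : l ≤ D.y0 := by
      have : (l : ℝ) ≤ D.y0 := hl2.trans e5
      exact_mod_cast this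
    have hC1 : 2 ≤ P.C1 := hP.c1
    have hWl : W < l := by
      have h1 : K ≤ K ^ P.C1 := by
        calc K = K ^ 1 := (pow_one K).symm
          _ ≤ K ^ P.C1 := pow_le_pow_right₀ (by linarith) (by omega)
      have : (W : ℝ) < l := by linarith
      exact_mod_cast this
    have hWcl : W.Coprime l := by
      refine ((Nat.Prime.coprime_iff_not_dvd hlp).2 fun h => ?_).symm
      have := Nat.le_of_dvd hW h
      omega
    by_cases hlH : (l : ℤ) ∣ H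
    · apply hzero
      intro Z X h1 h2 h3
      have h4 : (l : ℤ) ∣ (Z : ℤ) := by
        have h5 : (Z : ℤ) = ((l * X : ℕ) : ℤ) - H := by linarith
        rw [h5]
        refine dvd_sub ?_ hlH
        push_cast
        exact dvd_mul_right _ _
      have h5 : l ∣ Z := by exact_mod_cast h4
      have h6 := h2 l hlp h5
      omega
    have hcopH : IsCoprime H (l : ℤ) := by
      have h1 : Prime (l : ℤ) := Nat.prime_iff_prime_int.1 hlp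
      exact ((Prime.coprime_iff_not_dvd h1).2 hlH).symm
    have hcl : ∀ k : ℕ, ∃ c : ℕ, c.Coprime (W * l ^ k) ∧ ∀ Z : ℕ, (Z ≡ c [MOD W * l ^ k] ↔
        Z ≡ r [MOD W] ∧ ((l ^ k : ℕ) : ℤ) ∣ ((Z : ℕ) : ℤ) + H) := by
      intro k
      have h1 : IsCoprime H ((l ^ k : ℕ) : ℤ) := by
        rw [Nat.cast_pow]
        exact hcopH.pow_right
      obtain ⟨c, h2, h3⟩ := Pool.Agent.Lib.T3E.cls 1 (l ^ k) W r H (Nat.one_le_pow _ _ hlp.pos) hW (Nat.coprime_one_left _)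
        (Nat.Coprime.pow_right k hWcl) hr h1
      refine ⟨c, h2, fun Z => ?_⟩
      have h4 := h3 Z
      rw [one_mul] at h4
      exact h4
    obtain ⟨c1, hc1, hc1'⟩ := hcl 1
    obtain ⟨c2, hc2, hc2'⟩ := hcl 2
    have hMle : ∀ k : ℕ, 1 ≤ k → k ≤ 2 → ((W * l ^ k : ℕ) : ℝ) ≤ K ^ (2 * P.C1 + 5) := by
      intro k hk1 hk2
      have h1 : ((W * l ^ k : ℕ) : ℝ) ≤ ((W * l ^ 2 : ℕ) : ℝ) := by
        exact_mod_cast Nat.mul_le_mul_left W (Nat.pow_le_pow_right hlp.pos hk2)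
      refine h1.trans ?_
      push_cast
      calc (W : ℝ) * (l : ℝ) ^ 2 ≤ K * (4 * K ^ P.C1) ^ 2 :=
            mul_le_mul e2 (pow_le_pow_left₀ (Nat.cast_nonneg l) hl2 2) (by positivity) hK0.le
        _ = 16 * (K * K ^ (2 * P.C1)) := by ring
        _ ≤ K * (K * K ^ (2 * P.C1)) := mul_le_mul_of_nonneg_right e1 (by positivity)
        _ = K ^ (2 * P.C1 + 2) := by ring
        _ ≤ K ^ (2 * P.C1 + 5) := pow_le_pow_right₀ (by linarith) (by omega)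
    have hMp : ∀ k : ℕ, ∀ p : ℕ, p.Prime → p ∣ W * l ^ k → p ≤ D.y0 := by
      intro k p hp hd
      rcases (Nat.Prime.dvd_mul hp).1 hd with h1 | h1
      · exact hWp p hp h1
      · rw [(Nat.prime_dvd_prime_iff_eq hp hlp).1 (hp.dvd_of_dvd_pow h1)]
        exact hly
    have hM1 : ∀ k : ℕ, 1 ≤ W * l ^ k := fun k => Nat.mul_pos hW (Nat.pow_pos hlp.pos)
    have h1 := hend (W * l ^ 1) c1 (by rw [pow_one]; exact dvd_mul_left l W) (hM1 1) (hMle 1 le_rfl (by norm_num)) (hMp 1) hc1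
    have h2 := hend (W * l ^ 2) c2 ((dvd_pow_self l (by norm_num)).mul_left W) (hM1 2) (hMle 2 (by norm_num) le_rfl) (hMp 2) hc2
    have h3 : ∑ g ∈ TUP B1, ∑ m ∈ TUP B2, |∑ Z ∈ (Ioc a b).filter (fun Z => g ∣ Z ∧ Z ≡ r [MOD W] ∧ Rough D.y0 Z ∧
      ∃ X : ℕ, ((l * X : ℕ) : ℤ) = (Z : ℤ) + H ∧ m ∣ X ∧ Rough D.y0 X), lam Z| ≤
      ∑ g ∈ TUP B1, ∑ m ∈ TUP B2, (|∑ Z ∈ (Ioc a b).filter (fun Z => g ∣ Z ∧ (Rough D.y0 Z ∧ Z ≡ c1 [MOD W * l ^ 1] ∧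
        (m : ℤ) ∣ ((Z : ℕ) : ℤ) + H ∧ RZe l D.y0 (((Z : ℕ) : ℤ) + H))), lam Z| +
        |∑ Z ∈ (Ioc a b).filter (fun Z => g ∣ Z ∧ (Rough D.y0 Z ∧ Z ≡ c2 [MOD W * l ^ 2] ∧
        (m : ℤ) ∣ ((Z : ℕ) : ℤ) + H ∧ RZe l D.y0 (((Z : ℕ) : ℤ) + H))), lam Z|) := by
      refine sum_le_sum fun g _ => sum_le_sum fun m hm => ?_
      have h21 : ∀ Z : ℕ, ((l ^ 2 : ℕ) : ℤ) ∣ ((Z : ℕ) : ℤ) + H → ((l ^ 1 : ℕ) : ℤ) ∣ ((Z : ℕ) : ℤ) + H := by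
        intro Z hZ
        refine dvd_trans ?_ hZ
        exact Int.natCast_dvd_natCast.2 (Nat.pow_dvd_pow l (by norm_num))
      have hsub : (Ioc a b).filter (fun Z => g ∣ Z ∧ (Rough D.y0 Z ∧ Z ≡ c2 [MOD W * l ^ 2] ∧
          (m : ℤ) ∣ ((Z : ℕ) : ℤ) + H ∧ RZe l D.y0 (((Z : ℕ) : ℤ) + H))) ⊆
          (Ioc a b).filter (fun Z => g ∣ Z ∧ (Rough D.y0 Z ∧ Z ≡ c1 [MOD W * l ^ 1] ∧
          (m : ℤ) ∣ ((Z : ℕ) : ℤ) + H ∧ RZe l D.y0 (((Z : ℕ) : ℤ) + H))) := by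
        intro Z hZ
        rw [mem_filter, hc2'] at hZ
        rw [mem_filter, hc1']
        obtain ⟨z1, z2, z3, ⟨z4, z5⟩, z6, z7⟩ := hZ
        exact ⟨z1, z2, z3, ⟨z4, h21 Z z5⟩, z6, z7⟩
      have heq : (Ioc a b).filter (fun Z => g ∣ Z ∧ Z ≡ r [MOD W] ∧ Rough D.y0 Z ∧
          ∃ X : ℕ, ((l * X : ℕ) : ℤ) = (Z : ℤ) + H ∧ m ∣ X ∧ Rough D.y0 X) =
          ((Ioc a b).filter (fun Z => g ∣ Z ∧ (Rough D.y0 Z ∧ Z ≡ c1 [MOD W * l ^ 1] ∧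
          (m : ℤ) ∣ ((Z : ℕ) : ℤ) + H ∧ RZe l D.y0 (((Z : ℕ) : ℤ) + H)))) \
          ((Ioc a b).filter (fun Z => g ∣ Z ∧ (Rough D.y0 Z ∧ Z ≡ c2 [MOD W * l ^ 2] ∧
          (m : ℤ) ∣ ((Z : ℕ) : ℤ) + H ∧ RZe l D.y0 (((Z : ℕ) : ℤ) + H)))) := by
        ext Z
        rw [mem_sdiff, mem_filter, mem_filter, mem_filter, hc1', hc2']
        constructor
        · rintro ⟨z1, z2, z3, z4, z5⟩
          obtain ⟨w1, w2, w3, w4⟩ := (s2_eqv hlp hly (k1 m hm).2 (hZH Z z1)).1 z5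
          exact ⟨⟨z1, z2, z4, ⟨z3, w1⟩, w3, w4⟩, fun h => w2 h.2.2.2.1.2⟩
        · rintro ⟨⟨z1, z2, z3, ⟨z4, z5⟩, z6, z7⟩, z8⟩
          refine ⟨z1, z2, z4, z3, (s2_eqv hlp hly (k1 m hm).2 (hZH Z z1)).2 ⟨z5, fun h => ?_, z6, z7⟩⟩
          exact z8 ⟨z1, z2, z3, ⟨z4, h⟩, z6, z7⟩
      rw [heq, sum_sdiff_eq_sub hsub]
      exact abs_sub _ _
    have h4 : ∀ F G : ℕ → ℕ → ℝ, ∑ g ∈ TUP B1, ∑ m ∈ TUP B2, (F g m + G g m) =
        ∑ g ∈ TUP B1, ∑ m ∈ TUP B2, F g m + ∑ g ∈ TUP B1, ∑ m ∈ TUP B2, G g m := by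
      intro F G
      simp only [sum_add_distrib]
    rw [h4] at h3
    refine h3.trans ?_
    linarith

end Pool.Agent.Lib.TTE
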