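import Pool.Agent.Lib.MP_092512_nt.TT.E.S1
import Pool.Agent.Lib.MP_092512_nt.TT.E.S2

/-!
# TT / E / Bal (100 minutes): the two kinds of bad pairs are balanced

PROOF (as `T3E/Fin.lean`). For `x, y = ± 1`: `[x = -1, y = 1] - [x = 1, y = -1] = (y - x) / 2`, so the difference of the two numbers is `1/2 ∑_{X ∈ PL} (lam (sh s (l X) d) - lam (l X))`.
`∑ lam (l X) = lam l ∑ lam X`: `s1` with `g = t`, `m = t'`, `H = - d` (`s = true`, `sh = l X - d`) resp. `H = d`, `a = u / l`, `b = 2 u / l` (`u < l X` iff `u / l < X`); `b ≤ 2 u`.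
`∑ lam Y`, `Y = sh s (l X) d`: `X ↦ Y` is injective with image the `Z ∈ (u - d, 2 u - d]` (resp. `(u + d, 2 u + d]`) with `t' ∣ Z`, `Z ≡ r ∓ d (W)`, `Z` rough, `∃ X, l X = Z ± d`, `t ∣ X`, `X` rough: `s2` with `g = t'`, `m = t`, `H = d` resp. `- d`. `d ≤ K ^ (Cf + C1 + 240) ≤ y0`. Constants: `A + 2` in `s1`, `s2`.
-/

set_option autoImplicit false

open Finset

namespace Pool.Agent.Lib.TTE

open Pool.Agent.Lib.TCF (pht TUP rho)
open Pool.Agent.Lib.RG (Rough)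
open Pool.Agent.Lib.MP_45349e_nt.LS (lam)
open Pool.Agent.Lib.TT (Par Dat Ctx Fam Mul sh)
open Pool.Agent.Lib.T3E (RZ HN HG)

open Classical in
/-- the `X` with `u < l X ≤ 2 u`, `l X ≡ r (W)`, `t ∣ X`, `t' ∣ Y`, `X` and `Y = l X ∓ d` rough -/
noncomputable def PL (y0 l : ℕ) (s : Bool) (d u W r t t' : ℕ) : Finset ℕ :=
  (Icc 1 (2 * u)).filter fun X => u < l * X ∧ l * X ≤ 2 * u ∧ l * X ≡ r [MOD W] ∧ t ∣ X ∧ t' ∣ sh s (l * X) d ∧
    Rough y0 X ∧ Rough y0 (sh s (l * X) d)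

private theorem bal_half {x y : ℝ} (hx : |x| = 1) (hy : |y| = 1) :
    (if x = -1 ∧ y = 1 then (1 : ℝ) else 0) - (if x = 1 ∧ y = -1 then 1 else 0) = (y - x) / 2 := by
  have h1 : x = 1 ∨ x = -1 := by
    rcases abs_cases x with h | h
    · left; linarith [h.1]
    · right; linarith [h.1]
  have h2 : y = 1 ∨ y = -1 := by
    rcases abs_cases y with h | h
    · left; linarith [h.1]
    · right; linarith [h.1]
  rcases h1 with rfl | rfl <;> rcases h2 with rfl | rfl <;> norm_num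

private theorem bal_growth (N : ℕ) : ∃ x0 : ℕ, ∀ x : ℕ, x0 ≤ x → 8 * (Real.log x) ^ N ≤ (x : ℝ) ^ ((1 : ℝ) / 2) := by
  have h := (isLittleO_log_rpow_rpow_atTop (N : ℝ) (by norm_num : (0 : ℝ) < 1 / 2)).bound (by norm_num : (0 : ℝ) < 1 / 8)
  rw [Filter.eventually_atTop] at h
  obtain ⟨X, hX⟩ := h
  refine ⟨max 1 ⌈X⌉₊, fun x hx => ?_⟩
  have h1 : (1 : ℝ) ≤ x := by exact_mod_cast le_trans (le_max_left _ _) hx
  have h2 : X ≤ x := le_trans (Nat.le_ceil _) (by exact_mod_cast le_trans (le_max_right _ _) hx)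
  have h3 := hX x h2
  rw [Real.rpow_natCast, Real.norm_of_nonneg (pow_nonneg (Real.log_nonneg h1) _),
    Real.norm_of_nonneg (Real.rpow_nonneg (by linarith) _)] at h3
  linarith

private theorem rz_nat {M Y : ℕ} {z : ℤ} (h : z = (Y : ℤ)) : RZ M z ↔ Rough M Y := by
  subst h
  unfold RZ Rough
  constructor
  · intro h1 p hp hd
    exact h1 p hp (by exact_mod_cast hd)
  · intro h1 p hp hd
    exact h1 p hp (by exact_mod_cast hd)

open Classical in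
private theorem core (y0 l : ℕ) (hl : 1 ≤ l) (u W r t t' : ℕ) (yf : ℕ → ℕ) (H H' : ℤ) (a' b' r' : ℕ)
    (h0 : H' = -H)
    (h1 : ∀ v : ℕ, u < v → v ≤ 2 * u → (v : ℤ) + H = (yf v : ℤ))
    (h2 : ∀ v : ℕ, u < v → v ≤ 2 * u → a' < yf v ∧ yf v ≤ b')
    (h3 : ∀ Z v : ℕ, a' < Z → Z ≤ b' → (v : ℤ) = (Z : ℤ) + H' → u < v ∧ v ≤ 2 * u ∧ yf v = Z)
    (h4 : ∀ v : ℕ, u < v → v ≤ 2 * u → (v ≡ r [MOD W] ↔ yf v ≡ r' [MOD W])) :
    |((((Icc 1 (2 * u)).filter fun X => u < l * X ∧ l * X ≤ 2 * u ∧ l * X ≡ r [MOD W] ∧ t ∣ X ∧ t' ∣ yf (l * X) ∧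
      Rough y0 X ∧ Rough y0 (yf (l * X))).filter fun X => lam (l * X) = -1 ∧ lam (yf (l * X)) = 1).card : ℝ) -
    (((Icc 1 (2 * u)).filter fun X => u < l * X ∧ l * X ≤ 2 * u ∧ l * X ≡ r [MOD W] ∧ t ∣ X ∧ t' ∣ yf (l * X) ∧
      Rough y0 X ∧ Rough y0 (yf (l * X))).filter fun X => lam (l * X) = 1 ∧ lam (yf (l * X)) = -1).card| ≤
    1 / 2 * |∑ X ∈ (Ioc (u / l) (2 * u / l)).filter (fun X => t ∣ X ∧ (t' : ℤ) ∣ ((l * X : ℕ) : ℤ) + H ∧ l * X ≡ r [MOD W] ∧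
      Rough y0 X ∧ RZ y0 (((l * X : ℕ) : ℤ) + H)), lam X| +
    1 / 2 * |∑ Z ∈ (Ioc a' b').filter (fun Z => t' ∣ Z ∧ Z ≡ r' [MOD W] ∧ Rough y0 Z ∧
      ∃ X : ℕ, ((l * X : ℕ) : ℤ) = (Z : ℤ) + H' ∧ t ∣ X ∧ Rough y0 X), lam Z| := by
  set S : Finset ℕ := (Icc 1 (2 * u)).filter fun X => u < l * X ∧ l * X ≤ 2 * u ∧ l * X ≡ r [MOD W] ∧ t ∣ X ∧ t' ∣ yf (l * X) ∧
      Rough y0 X ∧ Rough y0 (yf (l * X)) with hS
  have hmem : ∀ X, X ∈ S ↔ (1 ≤ X ∧ X ≤ 2 * u) ∧ u < l * X ∧ l * X ≤ 2 * u ∧ l * X ≡ r [MOD W] ∧ t ∣ X ∧ t' ∣ yf (l * X) ∧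
      Rough y0 X ∧ Rough y0 (yf (l * X)) := by
    intro X
    rw [hS, Finset.mem_filter, Finset.mem_Icc]
  have e1 : ((S.filter fun X => lam (l * X) = -1 ∧ lam (yf (l * X)) = 1).card : ℝ) -
      (S.filter fun X => lam (l * X) = 1 ∧ lam (yf (l * X)) = -1).card =
      1 / 2 * (∑ X ∈ S, lam (yf (l * X)) - ∑ X ∈ S, lam (l * X)) := by
    rw [Finset.card_filter, Finset.card_filter]
    push_cast
    rw [← Finset.sum_sub_distrib, ← Finset.sum_sub_distrib, Finset.mul_sum]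
    apply Finset.sum_congr rfl
    intro X _
    rw [bal_half (Pool.Agent.Lib.MP_45349e_nt.LS.abs_lam (l * X)) (Pool.Agent.Lib.MP_45349e_nt.LS.abs_lam (yf (l * X)))]
    ring
  have e2 : |∑ X ∈ S, lam (l * X)| = |∑ X ∈ (Ioc (u / l) (2 * u / l)).filter (fun X => t ∣ X ∧ (t' : ℤ) ∣ ((l * X : ℕ) : ℤ) + H ∧ l * X ≡ r [MOD W] ∧
      Rough y0 X ∧ RZ y0 (((l * X : ℕ) : ℤ) + H)), lam X| := by
    have e3 : ∑ X ∈ S, lam (l * X) = lam l * ∑ X ∈ S, lam X := by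
      rw [Finset.mul_sum]
      apply Finset.sum_congr rfl
      intro X hX
      have := ((hmem X).1 hX).1.1
      exact Pool.Agent.Lib.MP_45349e_nt.LS.lam_mul l X (by omega) (by omega)
    rw [e3, abs_mul, Pool.Agent.Lib.MP_45349e_nt.LS.abs_lam, one_mul]
    congr 1
    apply Finset.sum_congr _ (fun _ _ => rfl)
    ext X
    rw [hmem, Finset.mem_filter, Finset.mem_Ioc, Nat.div_lt_iff_lt_mul (by omega : 0 < l), Nat.le_div_iff_mul_le (by omega : 0 < l),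
      mul_comm X l]
    constructor
    · rintro ⟨⟨_, _⟩, b1, b2, b3, b4, b5, b6, b7⟩
      refine ⟨⟨b1, b2⟩, b4, ?_, b3, b6, (rz_nat (h1 _ b1 b2)).2 b7⟩
      rw [h1 _ b1 b2]
      exact_mod_cast b5
    · rintro ⟨⟨b1, b2⟩, b4, b5, b3, b6, b7⟩
      rw [h1 _ b1 b2] at b5
      have b8 : X ≤ l * X := Nat.le_mul_of_pos_left _ (by omega)
      have b9 : X ≠ 0 := by
        rintro rfl
        simp only [mul_zero] at b1
        omega
      exact ⟨⟨by omega, by omega⟩, b1, b2, b3, b4, by exact_mod_cast b5, b6, (rz_nat (h1 _ b1 b2)).1 b7⟩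
  have e4 : ∑ X ∈ S, lam (yf (l * X)) = ∑ Z ∈ (Ioc a' b').filter (fun Z => t' ∣ Z ∧ Z ≡ r' [MOD W] ∧ Rough y0 Z ∧
      ∃ X : ℕ, ((l * X : ℕ) : ℤ) = (Z : ℤ) + H' ∧ t ∣ X ∧ Rough y0 X), lam Z := by
    refine Finset.sum_nbij (fun X => yf (l * X)) ?_ ?_ ?_ (fun _ _ => rfl)
    · intro X hX
      obtain ⟨_, b1, b2, b3, b4, b5, b6, b7⟩ := (hmem X).1 hX
      rw [Finset.mem_filter, Finset.mem_Ioc]
      refine ⟨h2 _ b1 b2, b5, (h4 _ b1 b2).1 b3, b7, X, ?_, b4, b6⟩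
      rw [← h1 _ b1 b2, h0]
      ring
    · intro X hX X' hX' heq
      obtain ⟨_, b1, b2, _⟩ := (hmem X).1 (Finset.mem_coe.1 hX)
      obtain ⟨_, c1, c2, _⟩ := (hmem X').1 (Finset.mem_coe.1 hX')
      have d1 := h1 _ b1 b2
      have d2 := h1 _ c1 c2
      have d3 : yf (l * X) = yf (l * X') := heq
      rw [d3, ← d2] at d1
      have d4 : ((l * X : ℕ) : ℤ) = ((l * X' : ℕ) : ℤ) := by linarith
      have d5 : l * X = l * X' := by exact_mod_cast d4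
      exact Nat.eq_of_mul_eq_mul_left (by omega) d5
    · intro Z hZ
      rw [Finset.mem_coe, Finset.mem_filter, Finset.mem_Ioc] at hZ
      obtain ⟨⟨c1, c2⟩, c3, c4, c5, X, c6, c7, c8⟩ := hZ
      obtain ⟨b1, b2, b3⟩ := h3 Z (l * X) c1 c2 c6
      refine ⟨X, ?_, b3⟩
      rw [Finset.mem_coe, hmem, b3]
      have b8 : X ≤ l * X := Nat.le_mul_of_pos_left _ (by omega)
      have b9 : X ≠ 0 := by
        rintro rfl
        simp only [mul_zero] at b1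
        omega
      exact ⟨⟨by omega, by omega⟩, b1, b2, (h4 _ b1 b2).2 (b3 ▸ c4), c7, c3, c8, c5⟩
  rw [e1, e4, abs_mul, abs_of_pos (by norm_num : (0 : ℝ) < 1 / 2), ← mul_add]
  apply mul_le_mul_of_nonneg_left _ (by norm_num)
  refine (abs_sub _ _).trans ?_
  rw [e2, add_comm]

private theorem shf (s : Bool) (d u W r : ℕ) (hW : 1 ≤ W) (hd : d ≤ u) :
    ∃ (H H' : ℤ) (a' b' r' : ℕ), H' = -H ∧ (H = d ∨ H = -(d : ℤ)) ∧ u ≤ a' + d ∧ a' ≤ b' ∧ b' ≤ 2 * u + d ∧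
    (∀ v : ℕ, u < v → v ≤ 2 * u → (v : ℤ) + H = (sh s v d : ℤ)) ∧
    (∀ v : ℕ, u < v → v ≤ 2 * u → a' < sh s v d ∧ sh s v d ≤ b') ∧
    (∀ Z v : ℕ, a' < Z → Z ≤ b' → (v : ℤ) = (Z : ℤ) + H' → u < v ∧ v ≤ 2 * u ∧ sh s v d = Z) ∧
    (∀ v : ℕ, u < v → v ≤ 2 * u → (v ≡ r [MOD W] ↔ sh s v d ≡ r' [MOD W])) := by
  cases s
  · refine ⟨d, -(d : ℤ), u + d, 2 * u + d, r + d, rfl, Or.inl rfl, by omega, by omega, le_rfl, ?_, ?_, ?_, ?_⟩
    · intro v _ _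
      simp only [sh, Bool.false_eq_true, if_false]
      push_cast
      rfl
    · intro v h1 h2
      simp only [sh, Bool.false_eq_true, if_false]
      omega
    · intro Z v h1 h2 h3
      simp only [sh, Bool.false_eq_true, if_false]
      omega
    · intro v _ _
      simp only [sh, Bool.false_eq_true, if_false]
      exact ⟨fun h => h.add_right d, fun h => Nat.ModEq.add_right_cancel' d h⟩
  · refine ⟨-(d : ℤ), d, u - d, 2 * u - d, r + (W - 1) * d, by ring, Or.inr rfl, by omega, by omega, by omega, ?_, ?_, ?_, ?_⟩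
    · intro v h1 _
      simp only [sh, if_true]
      omega
    · intro v h1 h2
      simp only [sh, if_true]
      omega
    · intro Z v h1 h2 h3
      simp only [sh, if_true]
      omega
    · intro v h1 _
      simp only [sh, if_true]
      have e1 : v - d + d = v := by omega
      have e2 : r + (W - 1) * d + d = r + W * d := by
        obtain ⟨W', rfl⟩ : ∃ W', W = W' + 1 := ⟨W - 1, by omega⟩
        simp only [Nat.add_sub_cancel]
        ring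
      have e3 : r + W * d ≡ r [MOD W] := by
        unfold Nat.ModEq
        rw [Nat.add_mul_mod_self_left]
      constructor
      · intro h
        apply Nat.ModEq.add_right_cancel' d
        rw [e1, e2]
        exact h.trans e3.symm
      · intro h
        have h5 := h.add_right d
        rw [e1, e2] at h5
        exact h5.trans e3

open Classical in
theorem bal (P : Par) (hP : P.Ok) (h01 : P.d0 ≤ 1 / 100) (W : ℕ) (hW : 1 ≤ W) (A : ℕ) : ∃ x0 : ℕ, ∀ D : Dat, x0 ≤ D.x → Ctx P D →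
    ∀ l : ℕ, Mul P D.x l → ∀ u d r : ℕ, (D.x : ℝ) ^ (1 - P.d0) ≤ u → u ≤ D.x → 1 ≤ d →
    (d : ℝ) ≤ (Real.log D.x) ^ (P.Cf + P.C1 + 240) → 2 ∣ d →
    ∑ t ∈ TUP D.BX, ∑ t' ∈ TUP D.BY,
      |(((PL D.y0 l P.s d u W r t t').filter fun X => lam (l * X) = -1 ∧ lam (sh P.s (l * X) d) = 1).card : ℝ) -
        ((PL D.y0 l P.s d u W r t t').filter fun X => lam (l * X) = 1 ∧ lam (sh P.s (l * X) d) = -1).card| ≤
      rho D.BX * rho D.BY * u / (Real.log D.x) ^ A := by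
  obtain ⟨x1, g1⟩ := Pool.Agent.Lib.TT.grow P hP 8
  obtain ⟨x2, g2⟩ := s1 P hP h01 W hW (A + 1)
  obtain ⟨x3, g3⟩ := s2 P hP h01 W hW (A + 1)
  obtain ⟨x4, g4⟩ := bal_growth (P.Cf + P.C1 + 240)
  refine ⟨max (max x1 x2) (max x3 x4), ?_⟩
  intro D hD hC l hM u d r hu hux hd1 hdK hd2
  have hD1 : x1 ≤ D.x := le_trans (le_trans (le_max_left _ _) (le_max_left _ _)) hD
  have hD2 : x2 ≤ D.x := le_trans (le_trans (le_max_right _ _) (le_max_left _ _)) hD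
  have hD3 : x3 ≤ D.x := le_trans (le_trans (le_max_left _ _) (le_max_right _ _)) hD
  have hD4 : x4 ≤ D.x := le_trans (le_trans (le_max_right _ _) (le_max_right _ _)) hD
  obtain ⟨f3, f8, fq, fqy, fy2, fyK, fKy, fH1, fH1lo, fH1up, fHH, fHHy, fC1, fth, fth1⟩ := g1 D hD1 hC
  have fN := g4 D.x hD4
  have t1 := g2 D hD2 hC D.nX D.nY D.BX D.BY hC.fx hC.fy l hM
  have t2 := g3 D hD3 hC D.nY D.nX D.BY D.BX hC.fy hC.fx l hM
  have hrX : 0 ≤ rho D.BX := by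
    have h := hC.fx.rh
    by_contra hc
    have : (Real.log D.x) ^ P.Cf * rho D.BX ≤ 0 :=
      mul_nonpos_of_nonneg_of_nonpos (pow_nonneg (by linarith) _) (by linarith)
    linarith
  have hrY : 0 ≤ rho D.BY := by
    have h := hC.fy.rh
    by_contra hc
    have : (Real.log D.x) ^ P.Cf * rho D.BY ≤ 0 :=
      mul_nonpos_of_nonneg_of_nonpos (pow_nonneg (by linarith) _) (by linarith)
    linarith
  have hl1 : 1 ≤ l := by
    rcases hM with h | h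
    · omega
    · exact h.1.one_lt.le
  have hK1 : 1 ≤ Real.log D.x := by linarith
  have hlK : (l : ℝ) ≤ 4 * (Real.log D.x) ^ P.C1 := by
    rcases hM with h | h
    · rw [h]
      have := one_le_pow₀ (n := P.C1) hK1
      push_cast
      linarith
    · exact h.2.2.1
  have hdy : d ≤ D.y0 := by
    rw [hC.y0]
    exact Nat.le_floor (hdK.trans (pow_le_pow_right₀ hK1 (by have := hP.cp; omega)))
  have hx1 : (1 : ℝ) ≤ D.x := by exact_mod_cast (by omega : 1 ≤ D.x)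
  have hxd : (D.x : ℝ) ^ ((1 : ℝ) / 2) ≤ (D.x : ℝ) ^ (1 - P.d0) :=
    Real.rpow_le_rpow_of_exponent_le hx1 (by linarith [hP.d1])
  have hdu : 8 * d ≤ u := by
    have : (8 * d : ℝ) ≤ u := by linarith
    exact_mod_cast this
  have hlu : 2 * l ≤ u := by
    have h5 : (Real.log D.x) ^ P.C1 ≤ (Real.log D.x) ^ (P.Cf + P.C1 + 240) := pow_le_pow_right₀ hK1 (by omega)
    have : (2 * l : ℝ) ≤ u := by linarith
    exact_mod_cast this
  obtain ⟨H, H', a', b', r', k0, k1, k2, k3, k4, k5, k6, k7, k8⟩ := shf P.s d u W r hW (by omega)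
  have hH0 : H ≠ 0 := by
    rcases k1 with h | h <;> rw [h] <;> omega
  have hHa : H.natAbs = d := by
    rcases k1 with h | h <;> rw [h] <;> simp
  have hH2 : (2 : ℤ) ∣ H := by
    have : (2 : ℤ) ∣ (d : ℤ) := by exact_mod_cast hd2
    rcases k1 with h | h
    · rw [h]; exact this
    · rw [h]; exact (dvd_neg).2 this
  have hH0' : H' ≠ 0 := by
    rw [k0]; exact neg_ne_zero.2 hH0
  have hHa' : H'.natAbs = d := by
    rw [k0, Int.natAbs_neg]; exact hHa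
  have hH2' : (2 : ℤ) ∣ H' := by
    rw [k0]; exact (dvd_neg).2 hH2
  have hdiv : l * (u / l) ≤ u := Nat.mul_div_le u l
  have hdiv2 : u < l * (u / l) + l := by
    calc u < l * (u / l + 1) := Nat.lt_mul_div_succ u hl1
      _ = l * (u / l) + l := by ring
  have b1 := t1 r (u / l) (2 * u / l) H hH0 (hHa.le.trans hdy) hH2 (by
    have : u ≤ 2 * (l * (u / l)) := by omega
    have : (u : ℝ) ≤ 2 * ((l * (u / l) : ℕ) : ℝ) := by exact_mod_cast this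
    linarith) (Nat.div_le_div_right (by omega)) (by
    have := Nat.mul_div_le (2 * u) l
    omega)
  have b2 := t2 r' a' b' H' hH0' (hHa'.le.trans hdy) hH2' (by
    have : u ≤ 2 * a' := by omega
    have : (u : ℝ) ≤ 2 * (a' : ℝ) := by exact_mod_cast this
    linarith) k3 (by omega)
  have hc := fun t t' => core D.y0 l hl1 u W r t t' (fun v => sh P.s v d) H H' a' b' r' k0 k5 k6 k7 k8
  have hrr : 0 ≤ rho D.BX * rho D.BY := mul_nonneg hrX hrY
  have hKA : 0 < (Real.log D.x) ^ (A + 1) := by positivity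
  calc ∑ t ∈ TUP D.BX, ∑ t' ∈ TUP D.BY,
      |(((PL D.y0 l P.s d u W r t t').filter fun X => lam (l * X) = -1 ∧ lam (sh P.s (l * X) d) = 1).card : ℝ) -
        ((PL D.y0 l P.s d u W r t t').filter fun X => lam (l * X) = 1 ∧ lam (sh P.s (l * X) d) = -1).card|
      ≤ ∑ t ∈ TUP D.BX, ∑ t' ∈ TUP D.BY,
        (1 / 2 * |∑ X ∈ (Ioc (u / l) (2 * u / l)).filter (fun X => t ∣ X ∧ (t' : ℤ) ∣ ((l * X : ℕ) : ℤ) + H ∧ l * X ≡ r [MOD W] ∧
      Rough D.y0 X ∧ RZ D.y0 (((l * X : ℕ) : ℤ) + H)), lam X| +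
        1 / 2 * |∑ Z ∈ (Ioc a' b').filter (fun Z => t' ∣ Z ∧ Z ≡ r' [MOD W] ∧ Rough D.y0 Z ∧
      ∃ X : ℕ, ((l * X : ℕ) : ℤ) = (Z : ℤ) + H' ∧ t ∣ X ∧ Rough D.y0 X), lam Z|) :=
        Finset.sum_le_sum fun t _ => Finset.sum_le_sum fun t' _ => hc t t'
    _ = 1 / 2 * (∑ t ∈ TUP D.BX, ∑ t' ∈ TUP D.BY,
        |∑ X ∈ (Ioc (u / l) (2 * u / l)).filter (fun X => t ∣ X ∧ (t' : ℤ) ∣ ((l * X : ℕ) : ℤ) + H ∧ l * X ≡ r [MOD W] ∧
      Rough D.y0 X ∧ RZ D.y0 (((l * X : ℕ) : ℤ) + H)), lam X|) +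
        1 / 2 * (∑ t' ∈ TUP D.BY, ∑ t ∈ TUP D.BX,
        |∑ Z ∈ (Ioc a' b').filter (fun Z => t' ∣ Z ∧ Z ≡ r' [MOD W] ∧ Rough D.y0 Z ∧
      ∃ X : ℕ, ((l * X : ℕ) : ℤ) = (Z : ℤ) + H' ∧ t ∣ X ∧ Rough D.y0 X), lam Z|) := by
        rw [Finset.sum_comm (s := TUP D.BY) (t := TUP D.BX)]
        simp_rw [Finset.sum_add_distrib, Finset.mul_sum]
    _ ≤ 1 / 2 * (rho D.BX * rho D.BY * ((2 * u / l : ℕ) : ℝ) / (Real.log D.x) ^ (A + 1)) +
        1 / 2 * (rho D.BY * rho D.BX * b' / (Real.log D.x) ^ (A + 1)) :=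
        add_le_add (mul_le_mul_of_nonneg_left b1 (by norm_num)) (mul_le_mul_of_nonneg_left b2 (by norm_num))
    _ ≤ 1 / 2 * (rho D.BX * rho D.BY * (2 * u) / (Real.log D.x) ^ (A + 1)) +
        1 / 2 * (rho D.BX * rho D.BY * (3 * u) / (Real.log D.x) ^ (A + 1)) := by
        have c1 : ((2 * u / l : ℕ) : ℝ) ≤ 2 * u := by exact_mod_cast Nat.div_le_self _ _
        have c2 : (b' : ℝ) ≤ 3 * u := by exact_mod_cast (by omega : b' ≤ 3 * u)
        rw [mul_comm (rho D.BY) (rho D.BX)]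
        gcongr
    _ = rho D.BX * rho D.BY * u * (5 / 2) / (Real.log D.x) ^ (A + 1) := by ring
    _ ≤ rho D.BX * rho D.BY * u * (Real.log D.x) / (Real.log D.x) ^ (A + 1) := by
        have : 0 ≤ rho D.BX * rho D.BY * u := by positivity
        apply div_le_div_of_nonneg_right _ hKA.le
        exact mul_le_mul_of_nonneg_left (by linarith) this
    _ = rho D.BX * rho D.BY * u / (Real.log D.x) ^ A := by
        have : Real.log D.x ≠ 0 := by linarith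
        rw [pow_succ, mul_div_mul_right _ _ this]

end Pool.Agent.Lib.TTE
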