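import Pool.Agent.Lib.MP_092512_nt.TT.Def

/-!
# TT / E / Fw: multiples of `j` in a family of products of primes (copy of `T3E/Fam.lean`)

PROOF. `TUP B` is the image of `Fintype.piFinset B` under the product, so `∑_{t ∈ TUP B, j ∣ t} 1/t ≤ ∑_{m ∈ piFinset B, j ∣ ∏ m} ∏ 1/m c` (image: `Finset.sum_image_le` or a choice of one preimage; nonnegative terms). For `m ∈ piFinset B` the `m c` are distinct primes (`disj`, `pr`), so if `j ∣ ∏ m` then `j` is squarefree and its primes are `m c`, `c ∈ J`, where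
`J` is the set of the `c` for which `B c` contains a prime factor of `j` (the sets `B c` are disjoint, so each prime factor `p` of `j` determines `c p`, and `m (c p) = p`). So the sum is `≤ ∏_{p ∣ j} (1/p) ∏_{c ∉ J} S c`, `S c = ∑_{p ∈ B c} 1/p`, i.e. `= rho B ∏_{p ∣ j} 1/(p S (c p))`, and `S c ≥ 1/K^3` (`lo`), `K^6 ≤ y0 < p`: `1/(p S) ≤ K^3/p ≤ p^(-1/2)`.
(By induction on the number of prime factors of `j`, or: `∑_{m, j ∣ ∏ m} ∏ 1/m c ≤ ∏_c (∑_{p ∈ B c, p ∣ j or no prime of j in B c} 1/p)` as a product over `c` of sums over `p ∈ B c` with the condition: if `B c` contains a prime factor of `j` then `p ∣ j`; `Finset.prod_univ_sum`; each set `B c` contains at most one prime factor of `j` unless the sum is empty: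
if two prime factors of `j` are in the same `B c`, or one is in no `B c`, or `j` is not squarefree, then no `m` has `j ∣ ∏ m`.)
-/

set_option autoImplicit false

open Finset
open Pool.Agent.Lib.TCF (TUP rho)
open Pool.Agent.Lib.TT (Par Fam)

namespace Pool.Agent.Lib.TTE

private theorem Fam_sum_image {α : Type*} (s : Finset α) (f : α → ℕ) (g : ℕ → ℝ) (hg : ∀ t, 0 ≤ g t) :
    ∑ t ∈ s.image f, g t ≤ ∑ m ∈ s, g (f m) := by
  rw [Finset.sum_comp g f]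
  refine Finset.sum_le_sum fun t ht => ?_
  have h1 : 1 ≤ (s.filter fun a => f a = t).card := by
    obtain ⟨a, ha, hat⟩ := Finset.mem_image.1 ht
    exact Finset.card_pos.2 ⟨a, Finset.mem_filter.2 ⟨ha, hat⟩⟩
  rw [nsmul_eq_mul]
  have h2 : (1 : ℝ) ≤ ((s.filter fun a => f a = t).card : ℝ) := by exact_mod_cast h1
  nlinarith [hg t]

private theorem Fam_dvd_prod {n : ℕ} {B : Fin n → Finset ℕ} (hp : ∀ c, ∀ p ∈ B c, p.Prime)
    (hd : ∀ c c', c ≠ c' → Disjoint (B c) (B c')) {m : Fin n → ℕ} (hm : m ∈ Fintype.piFinset B)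
    {c : Fin n} {p : ℕ} (hpc : p ∈ B c) (h : p ∣ ∏ c, m c) : m c = p := by
  rw [Fintype.mem_piFinset] at hm
  obtain ⟨c', -, hc'⟩ := (Prime.dvd_finsetProd_iff (hp c p hpc).prime m).1 h
  have h1 : p = m c' := (Nat.prime_dvd_prime_iff_eq (hp c p hpc) (hp c' _ (hm c'))).1 hc'
  by_cases hcc : c' = c
  · rw [← hcc, ← h1]
  · exfalso
    have h2 := hd c' c hcc
    rw [Finset.disjoint_left] at h2
    exact h2 (hm c') (h1 ▸ hpc)

theorem famw (P : Par) (R y0 : ℕ) {n : ℕ} (B : Fin n → Finset ℕ) (h : Fam P R y0 B) (hlog : 1 ≤ Real.log R) (hy : (Real.log R) ^ 6 ≤ y0) (j : ℕ) (hj : 1 ≤ j) :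
    ∑ t ∈ (TUP B).filter (fun t => j ∣ t), 1 / (t : ℝ) ≤ rho B * (j : ℝ) ^ (-(1 / 2) : ℝ) := by
  classical
  have hp : ∀ c, ∀ p ∈ B c, p.Prime := fun c p hp => (h.pr c p hp).1
  have hrho : 0 ≤ rho B := by
    unfold rho
    exact Finset.prod_nonneg fun c _ => Finset.sum_nonneg fun p _ => by positivity
  have hj0 : (0 : ℝ) < j := by exact_mod_cast hj
  by_cases hne : ((TUP B).filter fun t => j ∣ t).Nonempty
  swap
  · rw [Finset.not_nonempty_iff_eq_empty] at hne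
    rw [hne, Finset.sum_empty]
    positivity
  obtain ⟨t0, ht0⟩ := hne
  rw [Finset.mem_filter] at ht0
  obtain ⟨ht1, ht2⟩ := ht0
  unfold TUP at ht1
  obtain ⟨m0, hm0, rfl⟩ := Finset.mem_image.1 ht1
  have hm0' := Fintype.mem_piFinset.1 hm0
  set C0 : Finset (Fin n) := Finset.univ.filter fun c => m0 c ∣ j with hC0
  set B' : Fin n → Finset ℕ := fun c => if c ∈ C0 then {m0 c} else B c with hB'
  -- j divides the product over C0
  have hjd : j ∣ ∏ c ∈ C0, m0 c := by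
    have h1 : ∏ c, m0 c = (∏ c ∈ C0, m0 c) * ∏ c ∈ Finset.univ \ C0, m0 c := by
      rw [mul_comm, Finset.prod_sdiff (Finset.subset_univ C0)]
    rw [h1] at ht2
    refine Nat.Coprime.dvd_of_dvd_mul_right ?_ ht2
    refine Nat.Coprime.prod_right fun c hc => ?_
    rw [Finset.mem_sdiff] at hc
    have h2 : ¬ m0 c ∣ j := fun h3 => hc.2 (Finset.mem_filter.2 ⟨Finset.mem_univ _, h3⟩)
    exact ((Nat.Prime.coprime_iff_not_dvd (hp c _ (hm0' c))).2 h2).symm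
  have hjle : j ≤ ∏ c ∈ C0, m0 c := Nat.le_of_dvd
    (Finset.prod_pos fun c _ => (hp c _ (hm0' c)).pos) hjd
  -- inclusion
  have hsub : (TUP B).filter (fun t => j ∣ t) ⊆ (Fintype.piFinset B').image fun m : Fin n → ℕ => ∏ c, m c := by
    intro t ht
    rw [Finset.mem_filter] at ht
    unfold TUP at ht
    obtain ⟨m, hm, rfl⟩ := Finset.mem_image.1 ht.1
    refine Finset.mem_image.2 ⟨m, ?_, rfl⟩
    rw [Fintype.mem_piFinset]
    intro c
    simp only [hB']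
    by_cases hc : c ∈ C0
    · rw [if_pos hc, Finset.mem_singleton]
      exact Fam_dvd_prod hp h.disj hm (hm0' c) ((Finset.mem_filter.1 hc).2.trans ht.2)
    · rw [if_neg hc]
      exact Fintype.mem_piFinset.1 hm c
  have h1 : ∑ t ∈ (TUP B).filter (fun t => j ∣ t), 1 / (t : ℝ) ≤
      ∑ m ∈ Fintype.piFinset B', 1 / ((∏ c, m c : ℕ) : ℝ) :=
    (Finset.sum_le_sum_of_subset_of_nonneg hsub fun t _ _ => by positivity).trans
      (Fam_sum_image _ (fun m : Fin n → ℕ => ∏ c, m c) (fun t => 1 / (t : ℝ)) fun t => by positivity)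
  have h2 : ∑ m ∈ Fintype.piFinset B', 1 / ((∏ c, m c : ℕ) : ℝ) = ∏ c, ∑ p ∈ B' c, 1 / (p : ℝ) := by
    rw [Finset.prod_univ_sum]
    refine Finset.sum_congr rfl fun m _ => ?_
    push_cast
    rw [Finset.prod_div_distrib, Finset.prod_const_one]
  have h3 : ∏ c, ∑ p ∈ B' c, 1 / (p : ℝ) ≤
      ∏ c, ((∑ p ∈ B c, 1 / (p : ℝ)) * (if c ∈ C0 then ((m0 c : ℕ) : ℝ) ^ (-(1 / 2) : ℝ) else 1)) := by
    refine Finset.prod_le_prod (fun c _ => Finset.sum_nonneg fun p _ => by positivity) fun c _ => ?_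
    simp only [hB']
    by_cases hc : c ∈ C0
    · rw [if_pos hc, if_pos hc, Finset.sum_singleton]
      have hy0 : (y0 : ℝ) < (m0 c : ℝ) := by exact_mod_cast (h.pr c _ (hm0' c)).2
      have hm1 : (0 : ℝ) < (m0 c : ℝ) := by exact_mod_cast (hp c _ (hm0' c)).pos
      have hs1 : (Real.log R) ^ 3 ≤ (m0 c : ℝ) ^ ((1 : ℝ) / 2) := by
        have h5 : (Real.log R) ^ 3 = (((Real.log R) ^ 3) ^ 2) ^ ((1 : ℝ) / 2) := by
          rw [← Real.sqrt_eq_rpow, Real.sqrt_sq (by positivity)]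
        rw [h5]
        refine Real.rpow_le_rpow (by positivity) ?_ (by norm_num)
        calc ((Real.log R) ^ 3) ^ 2 = (Real.log R) ^ 6 := by ring
          _ ≤ (y0 : ℝ) := hy
          _ ≤ (m0 c : ℝ) := hy0.le
      have hs2 : (m0 c : ℝ) ^ (-(1 / 2) : ℝ) = ((m0 c : ℝ) ^ ((1 : ℝ) / 2))⁻¹ := by
        rw [Real.rpow_neg hm1.le]
      have hs3 : (m0 c : ℝ) = (m0 c : ℝ) ^ ((1 : ℝ) / 2) * (m0 c : ℝ) ^ ((1 : ℝ) / 2) := by
        rw [← Real.rpow_add hm1]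
        norm_num
      have hs4 : 0 < (m0 c : ℝ) ^ ((1 : ℝ) / 2) := Real.rpow_pos_of_pos hm1 _
      have hs5 : 1 / (m0 c : ℝ) = ((m0 c : ℝ) ^ ((1 : ℝ) / 2))⁻¹ * ((m0 c : ℝ) ^ ((1 : ℝ) / 2))⁻¹ := by
        rw [one_div, ← mul_inv, ← hs3]
      rw [hs5, hs2]
      refine mul_le_mul_of_nonneg_right ?_ (by positivity)
      calc ((m0 c : ℝ) ^ ((1 : ℝ) / 2))⁻¹ ≤ ((Real.log R) ^ 3)⁻¹ := inv_anti₀ (by positivity) hs1
        _ = 1 / (Real.log R) ^ 3 := by rw [one_div]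
        _ ≤ _ := h.lo c
    · rw [if_neg hc, if_neg hc, mul_one]
  have h4 : ∏ c, (if c ∈ C0 then ((m0 c : ℕ) : ℝ) ^ (-(1 / 2) : ℝ) else 1) ≤ (j : ℝ) ^ (-(1 / 2) : ℝ) := by
    have h5 : ∏ c, (if c ∈ C0 then ((m0 c : ℕ) : ℝ) ^ (-(1 / 2) : ℝ) else 1) =
        ∏ c ∈ C0, ((m0 c : ℕ) : ℝ) ^ (-(1 / 2) : ℝ) := by
      rw [Finset.prod_ite_mem, Finset.univ_inter]
    have h6 : ∏ c ∈ C0, ((m0 c : ℕ) : ℝ) ^ (-(1 / 2) : ℝ) = (∏ c ∈ C0, ((m0 c : ℕ) : ℝ)) ^ (-(1 / 2) : ℝ) :=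
      Real.finsetProd_rpow C0 (fun c => ((m0 c : ℕ) : ℝ)) (fun c _ => by positivity) _
    rw [h5, h6]
    refine Real.rpow_le_rpow_of_nonpos hj0 ?_ (by norm_num)
    have h7 : ((j : ℕ) : ℝ) ≤ ((∏ c ∈ C0, m0 c : ℕ) : ℝ) := by exact_mod_cast hjle
    rw [Nat.cast_prod] at h7
    exact h7
  calc ∑ t ∈ (TUP B).filter (fun t => j ∣ t), 1 / (t : ℝ)
      ≤ ∏ c, ((∑ p ∈ B c, 1 / (p : ℝ)) * (if c ∈ C0 then ((m0 c : ℕ) : ℝ) ^ (-(1 / 2) : ℝ) else 1)) :=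
        (h1.trans_eq h2).trans h3
    _ = rho B * ∏ c, (if c ∈ C0 then ((m0 c : ℕ) : ℝ) ^ (-(1 / 2) : ℝ) else 1) := by
        rw [Finset.prod_mul_distrib]
        rfl
    _ ≤ _ := mul_le_mul_of_nonneg_left h4 hrho

/-- the size of a family: at most `R ^ (d0/100)`, all members are free of primes `≤ y0` -/
theorem fam_card (P : Par) (R y0 : ℕ) {n : ℕ} (B : Fin n → Finset ℕ) (h : Fam P R y0 B) :
    ((TUP B).card : ℝ) ≤ (R : ℝ) ^ (P.d0 / 100) ∧ (∀ t ∈ TUP B, 1 ≤ t ∧ ∀ p : ℕ, p.Prime → p ∣ t → y0 < p) ∧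
      0 ≤ rho B ∧ rho B ≤ 1 := by
  classical
  have hp : ∀ c, ∀ p ∈ B c, p.Prime := fun c p hp => (h.pr c p hp).1
  have hmem : ∀ t ∈ TUP B, 1 ≤ t ∧ ∀ p : ℕ, p.Prime → p ∣ t → y0 < p := by
    intro t ht
    unfold TUP at ht
    obtain ⟨m, hm, rfl⟩ := Finset.mem_image.1 ht
    have hm' := Fintype.mem_piFinset.1 hm
    refine ⟨Finset.prod_pos fun c _ => (hp c _ (hm' c)).pos, ?_⟩
    · intro p hpp hd
      obtain ⟨c, -, hc⟩ := (Prime.dvd_finsetProd_iff hpp.prime m).1 hd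
      rw [(Nat.prime_dvd_prime_iff_eq hpp (hp c _ (hm' c))).1 hc]
      exact (h.pr c _ (hm' c)).2
  refine ⟨?_, hmem, ?_, ?_⟩
  · have h1 : TUP B ⊆ Finset.Icc 1 ⌊(R : ℝ) ^ (P.d0 / 100)⌋₊ := by
      intro t ht
      rw [Finset.mem_Icc]
      exact ⟨(hmem t ht).1, Nat.le_floor (h.tup t ht)⟩
    have h2 := Finset.card_le_card h1
    rw [Nat.card_Icc, Nat.add_sub_cancel] at h2
    have h3 : ((TUP B).card : ℝ) ≤ (⌊(R : ℝ) ^ (P.d0 / 100)⌋₊ : ℝ) := by exact_mod_cast h2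
    have h4 := Nat.floor_le (Real.rpow_nonneg (Nat.cast_nonneg R) (P.d0 / 100) : (0 : ℝ) ≤ (R : ℝ) ^ (P.d0 / 100))
    linarith
  · unfold rho
    exact Finset.prod_nonneg fun c _ => Finset.sum_nonneg fun p _ => by positivity
  · unfold rho
    exact Finset.prod_le_one (fun c _ => Finset.sum_nonneg fun p _ => by positivity) fun c _ => h.up c

end Pool.Agent.Lib.TTE
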