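import Pool.Agent.Lib.MP_092512_nt.TT.E.St

/-!
# TT / E / S1 (75 minutes): the sum of `lam X`

PROOF. `T3E.rng`-type splitting: the `X ∈ (a, b]` with `g ∣ X` are `X = g n`, `a / g < n ≤ b / g`; `lam (g n) = lam g lam n`; `Rough y0 (g n)` iff `Rough y0 n` (`g` is rough). So the inner sum is `± (∑ over NS (T = b / g) - ∑ over NS (T = a / g))` with `G = l g`, `b / g = (l b) / (l g)`, exempted prime `1` (`RZe 1 w z ↔ RZ w z`), `M = W`, `c = r`.
If `r` is not prime to `W` all sets are empty (a prime `p ∣ r, W` divides `l X`; `l = 1` or `l > W` prime, so `p ∣ X`, but `p ≤ W < y0`). If `l ≠ 1` and `l ∣ H` all sets are empty (`l ∣ l X + H`, `l ≤ y0`). Otherwise `seT (A + 1)` with `d = l` twice (`B = l b`, `B = l a`): `rho rho (b + a) / K ^ (A + 1)`. `H.natAbs ≤ y0`, `2 ∣ H`.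
-/

set_option autoImplicit false

open Finset

namespace Pool.Agent.Lib.TTE

open Pool.Agent.Lib.TCF (pht TUP rho)
open Pool.Agent.Lib.RG (Rough)
open Pool.Agent.Lib.MP_45349e_nt.LS (lam)
open Pool.Agent.Lib.TT (Par Dat Ctx Fam Mul sh)
open Pool.Agent.Lib.T3E (RZ HN HG)

private theorem s1_num (P : Par) (hP : P.Ok) (W : ℕ) : ∃ x0 : ℕ, ∀ D : Dat, x0 ≤ D.x → Ctx P D →
    16 ≤ Real.log D.x ∧ (W : ℝ) ≤ Real.log D.x ∧ W ≤ D.y0 ∧ 2 ≤ D.y0 ∧ 4 * (Real.log D.x) ^ P.C1 ≤ D.y0 ∧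
      Real.log D.x ≤ (Real.log D.x) ^ P.C1 := by
  obtain ⟨x1, hx1⟩ := Pool.Agent.Lib.TT.grow P hP (max 16 W)
  refine ⟨x1, fun D hD hC => ?_⟩
  obtain ⟨g1, g2, g3, g4, g5, g6, g7, g8, g9, g10, g11, g12, g13, g14, g15⟩ := hx1 D hD hC
  have hK : 16 ≤ Real.log D.x := (le_max_left _ _).trans g2
  have hWK : (W : ℝ) ≤ Real.log D.x := (le_max_right _ _).trans g2
  have hHy : (Pool.Agent.Lib.TT.HH P D.x : ℝ) < D.y0 := by exact_mod_cast g12
  have hKC : Real.log D.x ≤ (Real.log D.x) ^ P.C1 := by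
    have h4 : 1 ≤ P.C1 := le_trans (by norm_num) hP.c1
    calc Real.log D.x = (Real.log D.x) ^ 1 := (pow_one _).symm
      _ ≤ (Real.log D.x) ^ P.C1 := pow_le_pow_right₀ (by linarith) h4
  have hpos : 0 < (Real.log D.x) ^ P.C1 := by positivity
  refine ⟨hK, hWK, ?_, g5, by linarith, hKC⟩
  have : (W : ℝ) ≤ D.y0 := by linarith
  exact_mod_cast this

private theorem s1_rough_mul {M g n : ℕ} (hg : Rough M g) (hn : Rough M n) : Rough M (g * n) := by
  intro p hp hd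
  rcases hp.dvd_mul.1 hd with h | h
  · exact hg p hp h
  · exact hn p hp h

private theorem s1_RZe {w : ℕ} {z : ℤ} : RZe 1 w z ↔ RZ w z := by
  constructor
  · intro h p hp hd
    rcases h p hp hd with h1 | h1
    · exact absurd h1 hp.one_lt.ne'
    · exact h1
  · intro h p hp hd
    exact Or.inr (h p hp hd)

open Classical in
private theorem s1_part {y0 W l g m r T : ℕ} {H : ℤ} (hl : 1 ≤ l) (hg1 : 1 ≤ g) (hgy : Rough y0 g) :
    ∑ n ∈ (Icc 1 (T / g)).filter (fun n => (m : ℤ) ∣ ((l * (g * n) : ℕ) : ℤ) + H ∧ l * (g * n) ≡ r [MOD W] ∧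
      Rough y0 (g * n) ∧ RZ y0 (((l * (g * n) : ℕ) : ℤ) + H)), lam (g * n) =
    lam g * ∑ n ∈ NS y0 1 H W r (l * g) m ((l * T) / (l * g)), lam n := by
  rw [mul_sum]
  refine sum_congr ?_ ?_
  · unfold NS
    rw [Nat.mul_div_mul_left _ _ (by omega : 0 < l)]
    ext n
    simp only [mem_filter]
    rw [s1_RZe, mul_assoc l g n]
    constructor
    · rintro ⟨h1, h2, h3, h4, h5⟩
      exact ⟨h1, fun p hp hd => h4 p hp (Dvd.dvd.mul_left hd g), h3, h2, h5⟩
    · rintro ⟨h1, h2, h3, h4, h5⟩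
      exact ⟨h1, h4, h3, s1_rough_mul hgy h2, h5⟩
  · intro n hn
    have h1 := (mem_Icc.1 (mem_filter.1 hn).1).1
    exact Pool.Agent.Lib.MP_45349e_nt.LS.lam_mul g n (by omega) (by omega)

open Classical in
private theorem s1_one {y0 W l g m r a b : ℕ} {H : ℤ} (hl : 1 ≤ l) (hg1 : 1 ≤ g) (hgy : Rough y0 g) (hab : a ≤ b) :
    |∑ X ∈ (Ioc a b).filter (fun X => g ∣ X ∧ (m : ℤ) ∣ ((l * X : ℕ) : ℤ) + H ∧ l * X ≡ r [MOD W] ∧
      Rough y0 X ∧ RZ y0 (((l * X : ℕ) : ℤ) + H)), lam X| ≤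
    |∑ n ∈ NS y0 1 H W r (l * g) m ((l * b) / (l * g)), lam n| +
      |∑ n ∈ NS y0 1 H W r (l * g) m ((l * a) / (l * g)), lam n| := by
  have h := Pool.Agent.Lib.T3E.rng g a b hg1 hab (fun X => (m : ℤ) ∣ ((l * X : ℕ) : ℤ) + H ∧ l * X ≡ r [MOD W] ∧
      Rough y0 X ∧ RZ y0 (((l * X : ℕ) : ℤ) + H)) (fun X => lam X)
  have h1 : ∑ X ∈ (Ioc a b).filter (fun X => g ∣ X ∧ (m : ℤ) ∣ ((l * X : ℕ) : ℤ) + H ∧ l * X ≡ r [MOD W] ∧
      Rough y0 X ∧ RZ y0 (((l * X : ℕ) : ℤ) + H)), lam X =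
      lam g * (∑ n ∈ NS y0 1 H W r (l * g) m ((l * b) / (l * g)), lam n) -
        lam g * (∑ n ∈ NS y0 1 H W r (l * g) m ((l * a) / (l * g)), lam n) := by
    rw [← s1_part hl hg1 hgy, ← s1_part hl hg1 hgy]
    refine Eq.trans (sum_congr ?_ fun _ _ => rfl) (h.trans (congrArg₂ _ (sum_congr ?_ fun _ _ => rfl)
      (sum_congr ?_ fun _ _ => rfl)))
    · ext Z
      simp only [mem_filter]
    · ext Z
      simp only [mem_filter]
    · ext Z
      simp only [mem_filter]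
  rw [h1, ← mul_sub, abs_mul, Pool.Agent.Lib.MP_45349e_nt.LS.abs_lam, one_mul]
  exact abs_sub _ _

open Classical in
theorem s1 (P : Par) (hP : P.Ok) (h01 : P.d0 ≤ 1 / 100) (W : ℕ) (hW : 1 ≤ W) (A : ℕ) : ∃ x0 : ℕ, ∀ D : Dat, x0 ≤ D.x → Ctx P D →
    ∀ (n1 n2 : ℕ) (B1 : Fin n1 → Finset ℕ) (B2 : Fin n2 → Finset ℕ), Fam P D.x D.y0 B1 → Fam P D.x D.y0 B2 →
    ∀ l : ℕ, Mul P D.x l → ∀ (r a b : ℕ) (H : ℤ), H ≠ 0 → H.natAbs ≤ D.y0 → (2 : ℤ) ∣ H →
    (D.x : ℝ) ^ (1 - P.d0) / 2 ≤ ((l * a : ℕ) : ℝ) → a ≤ b → l * b ≤ 4 * D.x →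
    ∑ g ∈ TUP B1, ∑ m ∈ TUP B2, |∑ X ∈ (Ioc a b).filter (fun X => g ∣ X ∧ (m : ℤ) ∣ ((l * X : ℕ) : ℤ) + H ∧ l * X ≡ r [MOD W] ∧
      Rough D.y0 X ∧ RZ D.y0 (((l * X : ℕ) : ℤ) + H)), lam X| ≤ rho B1 * rho B2 * b / (Real.log D.x) ^ A := by
  obtain ⟨x1, hx1⟩ := s1_num P hP W
  obtain ⟨x2, hx2⟩ := seT P hP h01 (A + 1)
  refine ⟨max x1 x2, ?_⟩
  intro D hD hC n1 n2 B1 B2 hF1 hF2 l hl r a b H hH0 hHy hH2 ha hab hb
  obtain ⟨k1, k2, k3, k4, k5, k6⟩ := hx1 D ((le_max_left _ _).trans hD) hC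
  have key := hx2 D ((le_max_right _ _).trans hD) hC n1 n2 B1 B2 hF1 hF2
  have hr1 := (fam_card P D.x D.y0 B1 hF1).2.2.1
  have hr2 := (fam_card P D.x D.y0 B2 hF2).2.2.1
  have hf1 := (fam_card P D.x D.y0 B1 hF1).2.1
  have hRHS : 0 ≤ rho B1 * rho B2 * b / (Real.log D.x) ^ A := by
    have : 0 < Real.log D.x := by linarith
    positivity
  have hK1 : (1 : ℝ) ≤ Real.log D.x := by linarith
  -- facts on `l`
  have hl1 : 1 ≤ l ∧ Odd l ∧ (l : ℝ) ≤ (Real.log D.x) ^ (P.C1 + 1) ∧ l ≤ D.y0 ∧ l.Coprime W ∧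
      (l = 1 ∨ l.Prime) := by
    rcases hl with h | ⟨h1, h2, h3, -⟩
    · rw [h]
      refine ⟨le_rfl, odd_one, ?_, by omega, Nat.coprime_one_left W, Or.inl rfl⟩
      rw [Nat.cast_one]
      exact one_le_pow₀ hK1
    · have hlW : W < l := by
        have : (W : ℝ) < l := by linarith
        exact_mod_cast this
      have hl2 : 2 < l := by
        have : (2 : ℝ) < l := by linarith
        exact_mod_cast this
      refine ⟨h1.one_lt.le, h1.odd_of_ne_two (by omega), ?_, ?_, ?_, Or.inr h1⟩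
      · refine h3.trans ?_
        rw [pow_succ, mul_comm]
        exact mul_le_mul_of_nonneg_left (by linarith) (by positivity)
      · have : (l : ℝ) ≤ D.y0 := h3.trans k5
        exact_mod_cast this
      · exact (Nat.Prime.coprime_iff_not_dvd h1).2 fun hd => by
          have := Nat.le_of_dvd (by omega) hd
          omega
  obtain ⟨l1, l2, l3, l4, l5, l6⟩ := hl1
  by_cases hbad : ¬ r.Coprime W ∨ ¬ IsCoprime (l : ℤ) H
  · refine le_trans (le_of_eq (sum_eq_zero fun g _ => sum_eq_zero fun m _ => ?_)) hRHS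
    rw [filter_false_of_mem, sum_empty, abs_zero]
    rintro X - ⟨-, -, h3, h4, h5⟩
    rcases hbad with h | h
    · obtain ⟨p, hp1, hp2, hp3⟩ := Nat.Prime.not_coprime_iff_dvd.1 h
      have h6 : p ∣ l * X := by
        have h7 := h3.of_dvd hp3
        exact (Nat.modEq_zero_iff_dvd.1 (h7.trans (Nat.modEq_zero_iff_dvd.2 hp2)))
      have hpW := Nat.le_of_dvd (by omega) hp3
      rcases hp1.dvd_mul.1 h6 with h7 | h7
      · exact Nat.not_coprime_of_dvd_of_dvd hp1.one_lt h7 hp3 l5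
      · have := h4 p hp1 h7
        omega
    · rcases l6 with h6 | h6
      · rw [h6, Nat.cast_one] at h
        exact h isCoprime_one_left
      · have h7 : (l : ℤ) ∣ H := by
          by_contra hn
          apply h
          exact (Nat.prime_iff_prime_int.1 h6).coprime_iff_not_dvd.2 hn
        have h8 : (l : ℤ) ∣ ((l * X : ℕ) : ℤ) + H :=
          dvd_add (Int.natCast_dvd_natCast.2 (dvd_mul_right l X)) h7
        have := h5 l h6 h8
        omega
  · push Not at hbad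
    obtain ⟨hrW, hlH⟩ := hbad
    have hWp : ∀ p : ℕ, p.Prime → p ∣ W → p ≤ D.y0 := fun p _ hd =>
      (Nat.le_of_dvd (by omega) hd).trans k3
    have hWK : (W : ℝ) ≤ (Real.log D.x) ^ (2 * P.C1 + 5) := by
      refine k2.trans ?_
      calc Real.log D.x = (Real.log D.x) ^ 1 := (pow_one _).symm
        _ ≤ _ := pow_le_pow_right₀ hK1 (by omega)
    have hlr : (0 : ℝ) < l := by exact_mod_cast l1
    have e1 := key 1 l W r (l * b) H l2 l1 l3 l4 l5 hlH (one_dvd _) hW hWK hWp hrW hH0 hHy hH2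
      (ha.trans (by exact_mod_cast Nat.mul_le_mul_left l hab)) hb
    have e2 := key 1 l W r (l * a) H l2 l1 l3 l4 l5 hlH (one_dvd _) hW hWK hWp hrW hH0 hHy hH2
      ha ((Nat.mul_le_mul_left l hab).trans hb)
    have c1 : ((l * b : ℕ) : ℝ) / l = b := by
      push_cast
      field_simp
    have c2 : ((l * a : ℕ) : ℝ) / l = a := by
      push_cast
      field_simp
    rw [c1] at e1
    rw [c2] at e2
    have hab' : (a : ℝ) ≤ b := by exact_mod_cast hab
    calc _ ≤ ∑ g ∈ TUP B1, ∑ m ∈ TUP B2,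
          (|∑ n ∈ NS D.y0 1 H W r (l * g) m ((l * b) / (l * g)), lam n| +
            |∑ n ∈ NS D.y0 1 H W r (l * g) m ((l * a) / (l * g)), lam n|) := by
          refine sum_le_sum fun g hg => sum_le_sum fun m _ => ?_
          exact s1_one l1 (hf1 g hg).1 (hf1 g hg).2 hab
      _ ≤ rho B1 * rho B2 * b / (Real.log D.x) ^ (A + 1) + rho B1 * rho B2 * a / (Real.log D.x) ^ (A + 1) := by
          simp only [sum_add_distrib]
          exact add_le_add e1 e2
      _ ≤ rho B1 * rho B2 * b / (Real.log D.x) ^ A := by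
          have hTh : 0 ≤ rho B1 * rho B2 := mul_nonneg hr1 hr2
          set K := Real.log D.x with hK
          set Th := rho B1 * rho B2 with hThd
          have hK0 : 0 < K := by linarith
          have d1 : Th * a / K ^ (A + 1) ≤ Th * b / K ^ (A + 1) :=
            div_le_div_of_nonneg_right (mul_le_mul_of_nonneg_left hab' hTh) (by positivity)
          have d2 : Th * b / K ^ (A + 1) = Th * b / K ^ A * (1 / K) := by
            rw [pow_succ]
            field_simp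
          have d3 : 1 / K ≤ 1 / 2 := one_div_le_one_div_of_le (by norm_num) (by linarith)
          have d4 : 0 ≤ Th * b / K ^ A := by positivity
          nlinarith

end Pool.Agent.Lib.TTE
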