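import Pool.Agent.Lib.MP_092512_nt.TT.Cm
import Pool.Agent.Lib.MP_092512_nt.TT.E.Fw
import Pool.Agent.Lib.MP_092512_nt.TT.E.Se
import Pool.Agent.Lib.MP_7b7e48_nt.T3E.Rng
import Pool.Agent.Lib.MP_7b7e48_nt.T3E.Tr

/-!
# TT / E / St (100 minutes): `lam` in the progressions given by two tuples

`seT`. PROOF (as the main part of `T3E/Sid3.lean`, `sidG1`). `K = log D.x`. Let `N = 2 ^ i` be the smallest power of `2` with `B ≤ N` (`T3E.pow_range`, or `Nat.clog`): `B ≤ N ≤ 2 B`, so `x ^ (0.98) ≤ N ≤ 8 x`, `log N ≤ 2 K`, `K ≤ 2 log N` for large `x`. Apply `seF (A + 2)` (constant `C0`, `C1 := C0`, `e := 1`) with `wa = wb = D.y0`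
(`D.y0 ≤ K ^ Cp ≤ zC C0 N`: copy `s3_zC` of `T3E/Sid3.lean`), `B`, `d`, `Wf := M`, exempted prime `l`, index set `X` = the coprime pairs `(g, m)` of `TUP B1 × TUP B2`, `Th = rho B1 * rho B2`. For a pair which is not coprime the set `NS` is empty: a common prime `p > y0` divides `G n` and `G n + H`, so `p ∣ H`, but `0 < |H| ≤ y0`.
Class: `T3E.cls (d * g) m M c H` (`d g` is prime to `M m`: the prime factors of `g`, `m` are `> y0 ≥` those of `M`, `d`; `H` is prime to `m`); `FN N n = lam n` if `n` is odd, and rough numbers are odd (`D.y0 ≥ 2`). `HN N H`: `2 ∣ H`. `HG N y0 y0 (d g) H`: a prime `p ≤ y0` with `p ∣ H` divides neither `d` (`IsCoprime d H`) nor `g`.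
Sizes: `M ≤ K ^ (2 C1 + 5) ≤ N ^ (1/6000)`, `d ≤ N ^ (4/5)`, `g m ≤ x ^ (2 d0 / 100) ≤ x ^ (1/5000) ≤ N ^ (1/2000)`, `N ^ (999/1000) ≤ B`. Condition on `j`: `∑_{g} 1/g ≤ rho B1` and `∑_{m, j ∣ m} 1/m ≤ rho B2 j ^ (-1/2)` (`famw`, `K ^ 6 ≤ y0`). Result: `Th (N / d) / (log N) ^ (A + 2) ≤ rho rho (B / d) / K ^ A`.
-/

set_option autoImplicit false

open Finset

namespace Pool.Agent.Lib.TTE

open Pool.Agent.Lib.TCF (pht TUP rho)
open Pool.Agent.Lib.RG (Rough)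
open Pool.Agent.Lib.MP_45349e_nt.LS (lam)
open Pool.Agent.Lib.TT (Par Dat Ctx Fam Mul sh)
open Pool.Agent.Lib.T3E (RZ HN HG)

open Classical in
/-- the rough `n ≤ T` with `G n ≡ c (M)`, `m ∣ G n + H`, `G n + H` rough (the prime `l` is exempted) -/
noncomputable def NS (y0 l : ℕ) (H : ℤ) (M c G m T : ℕ) : Finset ℕ :=
  (Icc 1 T).filter fun n => Rough y0 n ∧ G * n ≡ c [MOD M] ∧ (m : ℤ) ∣ ((G * n : ℕ) : ℤ) + H ∧ RZe l y0 (((G * n : ℕ) : ℤ) + H)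

private theorem St_zC (C1 : ℝ) (h : 1 ≤ C1) (A : ℕ) : ∀ᶠ N : ℕ in Filter.atTop,
    (Real.log N) ^ A ≤ (Pool.Agent.Lib.TE.zC C1 N : ℝ) := by
  have h2 : Filter.Tendsto (fun N : ℕ => Real.log N) Filter.atTop Filter.atTop :=
    Real.tendsto_log_atTop.comp tendsto_natCast_atTop_atTop
  have h1 : (fun t : ℝ => Real.log t ^ 2) =o[Filter.atTop] fun t : ℝ => t :=
    Real.isLittleO_pow_log_id_atTop
  have hC : 0 < C1 := by linarith
  have hA : (0 : ℝ) < ((A : ℝ) + 1) * C1 := by positivity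
  have h3 := h2.eventually (h1.bound (show (0 : ℝ) < 1 / (((A : ℝ) + 1) * C1) by positivity))
  filter_upwards [h3, h2.eventually (Filter.eventually_ge_atTop 8)] with N hN hN8
  have hNpos : (0 : ℝ) < N := by
    rcases Nat.eq_zero_or_pos N with h0 | h0
    · rw [h0, Nat.cast_zero, Real.log_zero] at hN8
      linarith
    · exact_mod_cast h0
  set K := Real.log N with hK
  rw [Real.norm_eq_abs, Real.norm_eq_abs, abs_of_nonneg (sq_nonneg _),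
    abs_of_nonneg (show 0 ≤ K by linarith), one_div, inv_mul_eq_div, le_div_iff₀ hA] at hN
  have hlK : 1 < Real.log K := by
    rw [Real.lt_log_iff_exp_lt (by linarith)]
    have := Real.exp_one_lt_d9
    linarith
  have h4 : ((A : ℝ) + 1) * Real.log K ≤ K / (C1 * Real.log K) := by
    rw [le_div_iff₀ (by positivity)]
    nlinarith
  have h5 : K ^ (A + 1) ≤ (N : ℝ) ^ (1 / (C1 * Real.log K)) := by
    rw [Real.rpow_def_of_pos hNpos, ← hK]
    calc K ^ (A + 1) = Real.exp (((A : ℝ) + 1) * Real.log K) := by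
          rw [← Real.rpow_natCast, Real.rpow_def_of_pos (by linarith)]
          push_cast
          ring_nf
      _ ≤ Real.exp (K * (1 / (C1 * Real.log K))) := by
          apply Real.exp_le_exp.2
          rw [mul_one_div]
          exact h4
  have h6 : (N : ℝ) ^ (1 / (C1 * Real.log K)) < (Pool.Agent.Lib.TE.zC C1 N : ℝ) + 1 := Nat.lt_floor_add_one _
  have h7 : K ^ A + 1 ≤ K ^ (A + 1) := by
    have : 1 ≤ K ^ A := one_le_pow₀ (by linarith)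
    rw [pow_succ]
    nlinarith
  linarith

private theorem St_logpow (A : ℕ) (δ : ℝ) (hδ : 0 < δ) (C : ℝ) (hC : 0 < C) :
    ∀ᶠ N : ℕ in Filter.atTop, C * (Real.log N) ^ A ≤ (N : ℝ) ^ δ := by
  have h1 := (isLittleO_log_rpow_rpow_atTop (A : ℝ) hδ).bound
    (show (0 : ℝ) < 1 / C by positivity)
  have h2 := tendsto_natCast_atTop_atTop.eventually h1
  filter_upwards [h2, Filter.eventually_ge_atTop 1] with N hN hN1
  have hl : 0 ≤ Real.log N := Real.log_natCast_nonneg N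
  rw [Real.norm_eq_abs, Real.norm_eq_abs, Real.rpow_natCast, abs_of_nonneg (by positivity),
    abs_of_nonneg (by positivity), one_div, inv_mul_eq_div, le_div_iff₀ hC] at hN
  linarith

private theorem St_ge (C δ : ℝ) (hδ : 0 < δ) : ∀ᶠ N : ℕ in Filter.atTop, C ≤ (N : ℝ) ^ δ :=
  ((tendsto_rpow_atTop hδ).comp tendsto_natCast_atTop_atTop).eventually_ge_atTop C

private theorem St_log (C : ℝ) : ∀ᶠ N : ℕ in Filter.atTop, C ≤ Real.log N :=
  (Real.tendsto_log_atTop.comp tendsto_natCast_atTop_atTop).eventually_ge_atTop C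

/-- all the inequalities between the sizes -/
private theorem St_num (P : Par) (hP : P.Ok) (h01 : P.d0 ≤ 1 / 100) (A N0a : ℕ) (C1 : ℝ)
    (hC1 : 1 ≤ C1) : ∃ x0 : ℕ, ∀ D : Dat, x0 ≤ D.x → Ctx P D → ∀ B N : ℕ,
    (D.x : ℝ) ^ (1 - P.d0) / 2 ≤ B → B ≤ 4 * D.x → B ≤ N → N ≤ 2 * B →
    N0a ≤ N ∧ 1 ≤ B ∧ (1 : ℝ) ≤ N ∧ 2 ≤ D.y0 ∧ 16 ≤ Real.log D.x ∧ Real.log D.x ≤ 2 * Real.log N ∧
      (2 : ℝ) ^ (A + 3) ≤ Real.log D.x ∧ D.y0 ≤ Pool.Agent.Lib.TE.zC C1 N ∧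
      (N : ℝ) ^ ((999 : ℝ) / 1000) ≤ B ∧ (Real.log D.x) ^ (2 * P.C1 + 5) ≤ (N : ℝ) ^ ((1 : ℝ) / 6000) ∧
      (D.x : ℝ) ^ (2 * (P.d0 / 100)) ≤ (N : ℝ) ^ ((1 : ℝ) / 2000) ∧
      (Real.log D.x) ^ 6 ≤ D.y0 := by
  obtain ⟨x1, hx1⟩ := Pool.Agent.Lib.TT.grow P hP (max 16 (2 ^ (A + 3)))
  have e1 := St_zC C1 hC1 (P.Cp + 1)
  have e2 := St_log ((2 : ℝ) ^ P.Cp)
  have e3 := St_logpow (2 * P.C1 + 5) (1 / 6000) (by norm_num) (2 ^ (2 * P.C1 + 5)) (by positivity)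
  have e4 := St_ge 2 (1 / 1000) (by norm_num)
  obtain ⟨Nb, hNb⟩ := (e1.and (e2.and (e3.and e4))).exists_forall_of_atTop
  have e5 := St_ge 2 (1 / 100) (by norm_num)
  have e6 := St_ge (((max N0a Nb : ℕ) : ℝ)) (98 / 100) (by norm_num)
  obtain ⟨x2, hx2⟩ := (e5.and e6).exists_forall_of_atTop
  refine ⟨max x1 x2, fun D hD hC B N hB1 hB2 hBN hNB => ?_⟩
  obtain ⟨g1, g2, g3, g4, g5, g6, g7, g8, g9, g10, g11, g12, g13, g14, g15⟩ :=
    hx1 D ((le_max_left _ _).trans hD) hC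
  obtain ⟨f1, f2⟩ := hx2 D.x ((le_max_right _ _).trans hD)
  have hK : 16 ≤ Real.log D.x := (le_max_left _ _).trans g2
  have hK2 : (2 : ℝ) ^ (A + 3) ≤ Real.log D.x := (le_max_right _ _).trans g2
  have hx1r : (1 : ℝ) ≤ D.x := by exact_mod_cast (by omega : 1 ≤ D.x)
  have hx0 : (0 : ℝ) < D.x := by linarith
  have hBx : (D.x : ℝ) ^ ((98 : ℝ) / 100) ≤ B := by
    refine le_trans ?_ hB1
    rw [le_div_iff₀ (by norm_num)]
    calc (D.x : ℝ) ^ ((98 : ℝ) / 100) * 2 ≤ (D.x : ℝ) ^ ((98 : ℝ) / 100) * (D.x : ℝ) ^ ((1 : ℝ) / 100) :=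
          mul_le_mul_of_nonneg_left f1 (by positivity)
      _ = (D.x : ℝ) ^ ((99 : ℝ) / 100) := by
          rw [← Real.rpow_add hx0]; norm_num
      _ ≤ (D.x : ℝ) ^ (1 - P.d0) := Real.rpow_le_rpow_of_exponent_le hx1r (by linarith)
  have hBN' : (B : ℝ) ≤ N := by exact_mod_cast hBN
  have hNx : (D.x : ℝ) ^ ((98 : ℝ) / 100) ≤ N := hBx.trans hBN'
  have hNmax : max N0a Nb ≤ N := by
    have : ((max N0a Nb : ℕ) : ℝ) ≤ N := f2.trans hNx
    exact_mod_cast this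
  have hN0 : N0a ≤ N := (le_max_left _ _).trans hNmax
  obtain ⟨b1, b2, b3, b4⟩ := hNb N ((le_max_right _ _).trans hNmax)
  have hxp : (1 : ℝ) ≤ (D.x : ℝ) ^ ((98 : ℝ) / 100) := Real.one_le_rpow hx1r (by norm_num)
  have hN1 : (1 : ℝ) ≤ N := hxp.trans hNx
  have hNpos : (0 : ℝ) < N := by linarith
  have hlog : Real.log D.x ≤ 2 * Real.log N := by
    have h1 := Real.log_le_log (by positivity) hNx
    rw [Real.log_rpow hx0] at h1
    linarith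
  have hlN : 0 ≤ Real.log N := Real.log_nonneg hN1
  have hlx : 0 ≤ Real.log D.x := by linarith
  refine ⟨hN0, ?_, hN1, g5, hK, hlog, hK2, ?_, ?_, ?_, ?_, ?_⟩
  · have : (1 : ℝ) ≤ B := hxp.trans hBx
    exact_mod_cast this
  · have h1 : (D.y0 : ℝ) ≤ (Pool.Agent.Lib.TE.zC C1 N : ℝ) := by
      refine le_trans ?_ b1
      calc (D.y0 : ℝ) ≤ (Real.log D.x) ^ P.Cp := g6
        _ ≤ (2 * Real.log N) ^ P.Cp := pow_le_pow_left₀ hlx hlog _
        _ = 2 ^ P.Cp * (Real.log N) ^ P.Cp := mul_pow _ _ _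
        _ ≤ Real.log N * (Real.log N) ^ P.Cp := mul_le_mul_of_nonneg_right b2 (by positivity)
        _ = (Real.log N) ^ (P.Cp + 1) := by rw [pow_succ]; ring
    exact_mod_cast h1
  · have hNB' : (N : ℝ) ≤ 2 * B := by exact_mod_cast hNB
    have h1 : (N : ℝ) ^ ((999 : ℝ) / 1000) * (N : ℝ) ^ ((1 : ℝ) / 1000) = N := by
      rw [← Real.rpow_add hNpos]
      norm_num
    have h2 : (N : ℝ) ^ ((999 : ℝ) / 1000) * 2 ≤ N := by
      calc (N : ℝ) ^ ((999 : ℝ) / 1000) * 2 ≤ (N : ℝ) ^ ((999 : ℝ) / 1000) * (N : ℝ) ^ ((1 : ℝ) / 1000) :=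
            mul_le_mul_of_nonneg_left b4 (by positivity)
        _ = N := h1
    linarith
  · calc (Real.log D.x) ^ (2 * P.C1 + 5) ≤ (2 * Real.log N) ^ (2 * P.C1 + 5) :=
          pow_le_pow_left₀ hlx hlog _
      _ = 2 ^ (2 * P.C1 + 5) * (Real.log N) ^ (2 * P.C1 + 5) := mul_pow _ _ _
      _ ≤ _ := b3
  · calc (D.x : ℝ) ^ (2 * (P.d0 / 100)) ≤ (D.x : ℝ) ^ ((98 : ℝ) / 100 * (1 / 2000)) :=
          Real.rpow_le_rpow_of_exponent_le hx1r (by linarith)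
      _ = ((D.x : ℝ) ^ ((98 : ℝ) / 100)) ^ ((1 : ℝ) / 2000) := Real.rpow_mul hx0.le _ _
      _ ≤ (N : ℝ) ^ ((1 : ℝ) / 2000) := Real.rpow_le_rpow (by positivity) hNx (by norm_num)
  · have h1 : (Real.log D.x) ^ 6 ≤ (Real.log D.x) ^ (P.Cf + 230) :=
      pow_le_pow_right₀ (by linarith) (by omega)
    have h2 : (Pool.Agent.Lib.TT.HH P D.x : ℝ) < D.y0 := by exact_mod_cast g12
    have h3 : (Pool.Agent.Lib.TT.H1 P D.x : ℝ) ≤ Pool.Agent.Lib.TT.HH P D.x := by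
      have : Pool.Agent.Lib.TT.H1 P D.x ≤ Pool.Agent.Lib.TT.HH P D.x :=
        Nat.le_mul_of_pos_left _ (by have := hP.q2; omega)
      exact_mod_cast this
    linarith

/-- numbers with large and with small prime factors are coprime -/
private theorem St_cop {y0 a b : ℕ} (ha : ∀ p : ℕ, p.Prime → p ∣ a → y0 < p)
    (hb : ∀ p : ℕ, p.Prime → p ∣ b → p ≤ y0) : a.Coprime b := by
  by_contra h
  obtain ⟨p, hp1, hp2, hp3⟩ := Nat.Prime.not_coprime_iff_dvd.1 h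
  have h1 := ha p hp1 hp2
  have h2 := hb p hp1 hp3
  omega

private theorem St_isc {y0 m : ℕ} {H : ℤ} (hm : ∀ p : ℕ, p.Prime → p ∣ m → y0 < p) (hH0 : H ≠ 0)
    (hH : H.natAbs ≤ y0) : IsCoprime H (m : ℤ) := by
  have h1 : H.natAbs.Coprime m := (St_cop hm fun p _ hd =>
    (Nat.le_of_dvd (Int.natAbs_pos.2 hH0) hd).trans hH).symm
  rw [Int.isCoprime_iff_gcd_eq_one, Int.gcd, Int.natAbs_natCast]
  exact h1

/-- the weights of the pairs -/
private theorem St_wt {P : Par} {R y0 n1 n2 : ℕ} {B1 : Fin n1 → Finset ℕ} {B2 : Fin n2 → Finset ℕ}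
    (hF1 : Fam P R y0 B1) (hF2 : Fam P R y0 B2) (hK : 1 ≤ Real.log R) (hy : (Real.log R) ^ 6 ≤ y0)
    (N1 : ℕ) (j : ℕ) (hj : 1 ≤ j) :
    ∑ x ∈ (((TUP B1) ×ˢ (TUP B2)).filter (fun x => x.1.Coprime x.2)).filter (fun x => j ∣ x.2),
      1 / ((x.1 : ℝ) * x.2) ≤ rho B1 * rho B2 * ((j : ℝ) ^ (-(1 / 2) : ℝ) + (N1 : ℝ) ^ (-(1 : ℝ))) := by
  have h1 : ∑ x ∈ (((TUP B1) ×ˢ (TUP B2)).filter (fun x => x.1.Coprime x.2)).filter (fun x => j ∣ x.2),
      1 / ((x.1 : ℝ) * x.2) ≤ ∑ x ∈ (TUP B1) ×ˢ ((TUP B2).filter (fun t => j ∣ t)), 1 / ((x.1 : ℝ) * x.2) := by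
    refine sum_le_sum_of_subset_of_nonneg ?_ fun _ _ _ => by positivity
    intro x hx
    rw [mem_filter, mem_filter, mem_product] at hx
    rw [mem_product, mem_filter]
    exact ⟨hx.1.1.1, hx.1.1.2, hx.2⟩
  have h2 : ∑ x ∈ (TUP B1) ×ˢ ((TUP B2).filter (fun t => j ∣ t)), 1 / ((x.1 : ℝ) * x.2) =
      (∑ g ∈ TUP B1, 1 / (g : ℝ)) * ∑ m ∈ (TUP B2).filter (fun t => j ∣ t), 1 / (m : ℝ) := by
    rw [sum_product, sum_mul_sum]
    refine sum_congr rfl fun g _ => sum_congr rfl fun m _ => ?_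
    rw [div_mul_div_comm, one_mul]
  have h3 : ∑ g ∈ TUP B1, 1 / (g : ℝ) ≤ rho B1 := by
    have := famw P R y0 B1 hF1 hK hy 1 le_rfl
    rw [Nat.cast_one, Real.one_rpow, mul_one, filter_true_of_mem fun t _ => one_dvd t] at this
    exact this
  have h4 := famw P R y0 B2 hF2 hK hy j hj
  obtain ⟨-, -, h5, -⟩ := fam_card P R y0 B1 hF1
  obtain ⟨-, -, h6, -⟩ := fam_card P R y0 B2 hF2
  have h7 : 0 ≤ (N1 : ℝ) ^ (-(1 : ℝ)) := by positivity
  have h8 : 0 ≤ ∑ m ∈ (TUP B2).filter (fun t => j ∣ t), 1 / (m : ℝ) :=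
    Finset.sum_nonneg fun _ _ => by positivity
  calc _ ≤ _ := h1
    _ = _ := h2
    _ ≤ rho B1 * ∑ m ∈ (TUP B2).filter (fun t => j ∣ t), 1 / (m : ℝ) :=
        mul_le_mul_of_nonneg_right h3 h8
    _ ≤ rho B1 * (rho B2 * (j : ℝ) ^ (-(1 / 2) : ℝ)) := mul_le_mul_of_nonneg_left h4 h5
    _ ≤ rho B1 * rho B2 * ((j : ℝ) ^ (-(1 / 2) : ℝ) + (N1 : ℝ) ^ (-(1 : ℝ))) := by
        rw [← mul_assoc]
        exact mul_le_mul_of_nonneg_left (by linarith) (mul_nonneg h5 h6)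

theorem seT (P : Par) (hP : P.Ok) (h01 : P.d0 ≤ 1 / 100) (A : ℕ) : ∃ x0 : ℕ, ∀ D : Dat, x0 ≤ D.x → Ctx P D →
    ∀ (n1 n2 : ℕ) (B1 : Fin n1 → Finset ℕ) (B2 : Fin n2 → Finset ℕ), Fam P D.x D.y0 B1 → Fam P D.x D.y0 B2 →
    ∀ (l d M c B : ℕ) (H : ℤ), Odd d → 1 ≤ d → (d : ℝ) ≤ (Real.log D.x) ^ (P.C1 + 1) → d ≤ D.y0 → d.Coprime M → IsCoprime (d : ℤ) H →
    l ∣ M → 1 ≤ M → (M : ℝ) ≤ (Real.log D.x) ^ (2 * P.C1 + 5) → (∀ p : ℕ, p.Prime → p ∣ M → p ≤ D.y0) → c.Coprime M →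
    H ≠ 0 → H.natAbs ≤ D.y0 → (2 : ℤ) ∣ H → (D.x : ℝ) ^ (1 - P.d0) / 2 ≤ B → B ≤ 4 * D.x →
    ∑ g ∈ TUP B1, ∑ m ∈ TUP B2, |∑ n ∈ NS D.y0 l H M c (d * g) m (B / (d * g)), lam n| ≤
      rho B1 * rho B2 * (B / d) / (Real.log D.x) ^ A := by
  classical
  obtain ⟨C0, hC0, hC⟩ := seF (A + 2)
  obtain ⟨N0a, hN0a⟩ := hC C0 le_rfl 1 one_pos
  obtain ⟨x0, hx0⟩ := St_num P hP h01 A N0a C0 (by linarith)
  refine ⟨x0, ?_⟩
  intro D hD hCtx n1 n2 B1 B2 hF1 hF2 l d M c B H hodd hd1 hdK hdy hdM hdH hlM hM1 hMK hMp hcM hH0 hHy hH2 hB1 hB2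
  have hBr : (1 : ℝ) ≤ B := by
    obtain ⟨-, h, -⟩ := hx0 D hD hCtx B (max B 1) hB1 hB2 (le_max_left _ _) (by
      have h1 : 0 < (D.x : ℝ) ^ (1 - P.d0) / 2 := by
        have : (0 : ℝ) < D.x := by
          rcases Nat.eq_zero_or_pos D.x with h0 | h0
          · have hB0 : B = 0 := by omega
            rw [h0, Nat.cast_zero] at hB1
            exfalso
            obtain ⟨x1, hx1⟩ := Pool.Agent.Lib.TT.grow P hP 16
            have h5 := hCtx.y0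
            have h6 : IsCoprime (d : ℤ) H := hdH
            have h7 : H.natAbs ≤ D.y0 := hHy
            rw [h5, h0, Nat.cast_zero, Real.log_zero, zero_pow (by
              have := hP.cp; omega), Nat.floor_zero] at h7
            exact hH0 (Int.natAbs_eq_zero.1 (Nat.le_zero.1 h7))
          · exact_mod_cast h0
        positivity
      have h2 : (0 : ℝ) < B := lt_of_lt_of_le h1 hB1
      have h3 : 0 < B := by exact_mod_cast h2
      rw [max_eq_left (by omega)]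
      omega)
    exact_mod_cast h
  obtain ⟨i, hi1, hi2⟩ := Pool.Agent.Lib.T3E.pow_range (B : ℝ) hBr
  obtain ⟨N, hNdef⟩ : ∃ N : ℕ, N = 2 ^ i := ⟨_, rfl⟩
  have hBN : B ≤ N := by
    have : (B : ℝ) ≤ ((2 ^ i : ℕ) : ℝ) := by push_cast; exact hi1
    rw [hNdef]
    exact_mod_cast this
  have hNB : N ≤ 2 * B := by
    have : ((2 ^ i : ℕ) : ℝ) ≤ ((2 * B : ℕ) : ℝ) := by push_cast; exact hi2
    rw [hNdef]
    exact_mod_cast this
  obtain ⟨k1, k2, k3, k4, k5, k6, k7, k8, k9, k10, k11, k12⟩ := hx0 D hD hCtx B N hB1 hB2 hBN hNB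
  have hNp : ∀ p : ℕ, p.Prime → p ∣ N → p = 2 := by
    intro p hp hd
    rw [hNdef] at hd
    exact (Nat.prime_dvd_prime_iff_eq hp Nat.prime_two).1 (hp.dvd_of_dvd_pow hd)
  have hcopN : ∀ n : ℕ, ¬ 2 ∣ n → n.Coprime N := by
    intro n hn
    by_contra h
    obtain ⟨p, hp1, hp2, hp3⟩ := Nat.Prime.not_coprime_iff_dvd.1 h
    rw [hNp p hp1 hp3] at hp2
    exact hn hp2
  have hlarge2 : ∀ n : ℕ, (∀ p : ℕ, p.Prime → p ∣ n → D.y0 < p) → ¬ 2 ∣ n := by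
    intro n hn h
    have := hn 2 Nat.prime_two h
    omega
  have hHN : HN N H := by
    intro p hp hd
    rw [hNp p hp hd]
    exact_mod_cast hH2
  have hf1 := (fam_card P D.x D.y0 B1 hF1).2.1
  have hf2 := (fam_card P D.x D.y0 B2 hF2).2.1
  have hr1 := (fam_card P D.x D.y0 B1 hF1).2.2.1
  have hr2 := (fam_card P D.x D.y0 B2 hF2).2.2.1
  have hK1 : (1 : ℝ) ≤ Real.log D.x := by linarith
  have hdp : ∀ p : ℕ, p.Prime → p ∣ d → p ≤ D.y0 := fun p _ hd => (Nat.le_of_dvd hd1 hd).trans hdy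
  -- the pairs
  obtain ⟨X, hX⟩ : ∃ X : Finset (ℕ × ℕ), X = ((TUP B1) ×ˢ (TUP B2)).filter (fun x => x.1.Coprime x.2) := ⟨_, rfl⟩
  have hXm : ∀ x ∈ X, x.1 ∈ TUP B1 ∧ x.2 ∈ TUP B2 ∧ x.1.Coprime x.2 := by
    intro x hx
    rw [hX, mem_filter, mem_product] at hx
    exact ⟨hx.1.1, hx.1.2, hx.2⟩
  rw [← sum_product']
  have hsub : ∑ x ∈ (TUP B1) ×ˢ (TUP B2), |∑ n ∈ NS D.y0 l H M c (d * x.1) x.2 (B / (d * x.1)), lam n| =
      ∑ x ∈ X, |∑ n ∈ NS D.y0 l H M c (d * x.1) x.2 (B / (d * x.1)), lam n| := by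
    refine (sum_subset ?_ ?_).symm
    · rw [hX]
      exact filter_subset _ _
    · intro x hx hnx
      have hnc : ¬ x.1.Coprime x.2 := fun hc => hnx (by rw [hX, mem_filter]; exact ⟨hx, hc⟩)
      have hx2 := (mem_product.1 hx).2
      obtain ⟨p, hp1, hp2, hp3⟩ := Nat.Prime.not_coprime_iff_dvd.1 hnc
      have hempty : NS D.y0 l H M c (d * x.1) x.2 (B / (d * x.1)) = ∅ := by
        unfold NS
        refine filter_false_of_mem ?_
        rintro n - ⟨-, -, h3, -⟩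
        have h4 : (p : ℤ) ∣ ((d * x.1 * n : ℕ) : ℤ) + H := (Int.natCast_dvd_natCast.2 hp3).trans h3
        have h5 : (p : ℤ) ∣ ((d * x.1 * n : ℕ) : ℤ) :=
          Int.natCast_dvd_natCast.2 (Dvd.dvd.mul_right (Dvd.dvd.mul_left hp2 _) _)
        have h6 : (p : ℤ) ∣ H := (Int.dvd_add_right h5).1 h4
        have h7 : p ∣ H.natAbs := Int.natCast_dvd.1 h6
        have h8 := Nat.le_of_dvd (Int.natAbs_pos.2 hH0) h7
        have h9 := (hf2 _ hx2).2 p hp1 hp3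
        omega
      rw [hempty, sum_empty, abs_zero]
  rw [hsub]
  -- the classes
  have hex : ∀ x ∈ X, ∃ cl : ℕ, cl.Coprime (M * x.2) ∧ ∀ n : ℕ, (n ≡ cl [MOD M * x.2] ↔
      d * x.1 * n ≡ c [MOD M] ∧ (x.2 : ℤ) ∣ ((d * x.1 * n : ℕ) : ℤ) + H) := by
    intro x hx
    obtain ⟨hx1, hx2, hx3⟩ := hXm x hx
    obtain ⟨g1, g2⟩ := hf1 _ hx1
    obtain ⟨m1, m2⟩ := hf2 _ hx2
    refine Pool.Agent.Lib.T3E.cls (d * x.1) x.2 M c H m1 hM1 ?_ (St_cop m2 hMp).symm hcM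
      (St_isc m2 hH0 hHy)
    exact Nat.Coprime.mul_right (Nat.Coprime.mul_left hdM (St_cop g2 hMp))
      (Nat.Coprime.mul_left (St_cop m2 hdp).symm hx3)
  choose! cl hcl1 hcl2 using hex
  have hxN : (d : ℝ) ≤ (N : ℝ) ^ ((4 : ℝ) / 5) := by
    calc (d : ℝ) ≤ (Real.log D.x) ^ (P.C1 + 1) := hdK
      _ ≤ (Real.log D.x) ^ (2 * P.C1 + 5) := pow_le_pow_right₀ hK1 (by omega)
      _ ≤ (N : ℝ) ^ ((1 : ℝ) / 6000) := k10
      _ ≤ (N : ℝ) ^ ((4 : ℝ) / 5) := Real.rpow_le_rpow_of_exponent_le k3 (by norm_num)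
  have hd2 : ¬ 2 ∣ d := by
    rw [← even_iff_two_dvd, Nat.not_even_iff_odd]
    exact hodd
  have key := hN0a N k1 D.y0 D.y0 k8 k8 l H hHN B k9 hBN d hd1 hxN (hcopN d hd2) M hM1 (hMK.trans k10) hlM
    (ℕ × ℕ) X Prod.fst Prod.snd cl (rho B1 * rho B2) (mul_nonneg hr1 hr2) ?_ ?_
  · refine le_trans (le_of_eq ?_) (key.trans ?_)
    · refine sum_congr rfl fun x hx => congrArg _ ?_
      have hset : NS D.y0 l H M c (d * x.1) x.2 (B / (d * x.1)) =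
          (Icc 1 (B / (d * x.1))).filter (fun n => n ≡ cl x [MOD M * x.2] ∧ Pool.Agent.Lib.GT.Rough D.y0 n ∧
            RZe l D.y0 (((d * x.1 : ℕ) : ℤ) * n + H)) := by
        unfold NS
        ext n
        simp only [mem_filter]
        have hcast : ((d * x.1 * n : ℕ) : ℤ) + H = ((d * x.1 : ℕ) : ℤ) * n + H := by push_cast; ring
        have h1 := hcl2 x hx n
        rw [hcast] at h1 ⊢
        constructor
        · rintro ⟨h2, h3, h4, h5, h6⟩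
          exact ⟨h2, h1.2 ⟨h4, h5⟩, h3, h6⟩
        · rintro ⟨h2, h3, h4, h5⟩
          exact ⟨h2, h4, (h1.1 h3).1, (h1.1 h3).2, h5⟩
      rw [hset]
      refine sum_congr rfl fun n hn => ?_
      have hn' := (mem_filter.1 hn).2.2.1
      have h2 : ¬ 2 ∣ n := hlarge2 n hn'
      rw [Pool.Agent.Lib.TE.FN, if_pos (hcopN n h2)]
    · have hdr : (0 : ℝ) < d := by exact_mod_cast hd1
      have hNB' : (N : ℝ) ≤ 2 * B := by exact_mod_cast hNB
      have hTh : 0 ≤ rho B1 * rho B2 := mul_nonneg hr1 hr2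
      set K := Real.log D.x with hKdef
      set K1 := Real.log N with hK1def
      set Th := rho B1 * rho B2 with hThdef
      have hK0 : 0 < K := by linarith
      have hK10 : 0 < K1 := by linarith
      have h1 : Th * ((N : ℝ) / d) / K1 ^ (A + 2) ≤ Th * ((2 * B : ℝ) / d) / K1 ^ (A + 2) :=
        div_le_div_of_nonneg_right (mul_le_mul_of_nonneg_left
          (div_le_div_of_nonneg_right hNB' hdr.le) hTh) (by positivity)
      have h2 : (K / 2) ^ (A + 2) ≤ K1 ^ (A + 2) := pow_le_pow_left₀ (by linarith) (by linarith) _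
      have h3 : Th * ((2 * B : ℝ) / d) / K1 ^ (A + 2) ≤ Th * ((2 * B : ℝ) / d) / (K / 2) ^ (A + 2) :=
        div_le_div_of_nonneg_left (by positivity) (by positivity) h2
      have h4 : Th * ((2 * B : ℝ) / d) / (K / 2) ^ (A + 2) =
          Th * ((B : ℝ) / d) / K ^ A * (2 ^ (A + 3) / K ^ 2) := by
        rw [div_pow, pow_add K, pow_succ (2 : ℝ) (A + 2)]
        field_simp
      have h5 : (2 : ℝ) ^ (A + 3) / K ^ 2 ≤ 1 := by
        rw [div_le_one (by positivity)]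
        nlinarith
      have h6 : 0 ≤ Th * ((B : ℝ) / d) / K ^ A := by positivity
      calc _ ≤ _ := h1
        _ ≤ _ := h3
        _ = _ := h4
        _ ≤ Th * ((B : ℝ) / d) / K ^ A := mul_le_of_le_one_right h6 h5
  · intro x hx
    obtain ⟨hx1, hx2, hx3⟩ := hXm x hx
    obtain ⟨g1, g2⟩ := hf1 _ hx1
    obtain ⟨m1, m2⟩ := hf2 _ hx2
    have f7 := hF1.tup _ hx1
    have f8 := hF2.tup _ hx2
    refine ⟨g1, m1, ?_, hcopN _ (hlarge2 _ g2), hcl1 x hx, ?_⟩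
    · push_cast
      have hxpos : (0 : ℝ) ≤ D.x := Nat.cast_nonneg _
      have hx0' : (0 : ℝ) < D.x := by
        rcases Nat.eq_zero_or_pos D.x with h0 | h0
        · rw [h0, Nat.cast_zero, Real.log_zero] at k5
          linarith
        · exact_mod_cast h0
      calc (x.1 : ℝ) * x.2 ≤ (D.x : ℝ) ^ (P.d0 / 100) * (D.x : ℝ) ^ (P.d0 / 100) :=
            mul_le_mul f7 f8 (by positivity) (by positivity)
        _ = (D.x : ℝ) ^ (2 * (P.d0 / 100)) := by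
            rw [← Real.rpow_add hx0']
            congr 1
            ring
        _ ≤ (N : ℝ) ^ ((1 : ℝ) / 2000) := k11
    · intro p hp hpy hpH _
      refine ⟨hpy, fun hd => ?_⟩
      rcases hp.dvd_mul.1 hd with h | h
      · have h1 : IsUnit (p : ℤ) := hdH.isUnit_of_dvd' (Int.natCast_dvd_natCast.2 h) hpH
        rw [Int.isUnit_iff_natAbs_eq, Int.natAbs_natCast] at h1
        exact hp.one_lt.ne' h1
      · have := g2 p hp h
        omega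
  · intro j hj
    rw [hX]
    exact St_wt hF1 hF2 hK1 k12 N j hj

end Pool.Agent.Lib.TTE
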